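import Mathlib

set_option autoImplicit false

open Topology Filter Metric Set

namespace Pool.Agent.H713R2.SJ

/-- A holomorphic branch of the solutions of `F s z = w` over a disc of simple solutions. -/
theorem exists_holo_root {F : ℂ → ℂ → ℂ} (hF : ContDiff ℂ 1 (fun p : ℂ × ℂ => F p.1 p.2))
    (hprop : ∀ K : ℝ, ∃ B : ℝ, ∀ s z : ℂ, ‖s‖ ≤ K → ‖F s z‖ ≤ K → ‖z‖ ≤ B)
    {δ : ℝ} (hδ : 0 < δ) {w : ℂ}
    (hsimple : ∀ s ∈ ball (0 : ℂ) δ, ∀ z, F s z = w → deriv (F s) z ≠ 0) {u : ℂ} (hu : F 0 u = w) :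
    ∃ Z : ℂ → ℂ, DifferentiableOn ℂ Z (ball 0 δ) ∧ Z 0 = u ∧
      ∀ s ∈ ball (0 : ℂ) δ, F s (Z s) = w := by
  set G : ℂ × ℂ → ℂ := fun p => F p.1 p.2 with hG
  set Φ : ℂ × ℂ → ℂ × ℂ := fun p => (p.1, G p) with hΦ
  have hΦc : Continuous Φ := continuous_fst.prodMk hF.continuous
  have hΦd : ContDiff ℂ 1 Φ := contDiff_fst.prodMk hF
  set S : Set (ℂ × ℂ) := {p | p.1 ∈ ball (0 : ℂ) δ ∧ p.2 = w} with hS
  -- local inverses
  have hloc : ∀ p ∈ Φ ⁻¹' S, ∃ e : (ℂ × ℂ) ≃L[ℂ] (ℂ × ℂ),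
      HasStrictFDerivAt Φ (e : (ℂ × ℂ) →L[ℂ] (ℂ × ℂ)) p := by
    rintro ⟨s, z⟩ ⟨hp1, hp2⟩
    simp only [hΦ, hG] at hp1 hp2
    have hGd : HasStrictFDerivAt G (fderiv ℂ G (s, z)) (s, z) :=
      hF.contDiffAt.hasStrictFDerivAt (by norm_num)
    set A := fderiv ℂ G (s, z) with hA
    have hβ : A (0, 1) = deriv (F s) z := by
      have h2 : HasDerivAt (fun y : ℂ => ((s, y) : ℂ × ℂ)) ((0, 1) : ℂ × ℂ) z :=
        (hasDerivAt_const z s).prodMk (hasDerivAt_id z)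
      exact (hGd.hasFDerivAt.comp_hasDerivAt z h2).deriv.symm
    have hβ0 : A (0, 1) ≠ 0 := by rw [hβ]; exact hsimple s hp1 z hp2
    set f₁ : (ℂ × ℂ) →L[ℂ] (ℂ × ℂ) := (ContinuousLinearMap.fst ℂ ℂ ℂ).prod A with hf₁
    set f₂ : (ℂ × ℂ) →L[ℂ] (ℂ × ℂ) := (ContinuousLinearMap.fst ℂ ℂ ℂ).prod
      ((A (0, 1))⁻¹ • (ContinuousLinearMap.snd ℂ ℂ ℂ -
        (A (1, 0)) • (ContinuousLinearMap.fst ℂ ℂ ℂ))) with hf₂
    have hAx : ∀ x y : ℂ, A (x, y) = x * A (1, 0) + y * A (0, 1) := by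
      intro x y
      have h3 : ((x, y) : ℂ × ℂ) = x • ((1, 0) : ℂ × ℂ) + y • ((0, 1) : ℂ × ℂ) := by
        simp
      rw [h3, map_add, map_smul, map_smul, smul_eq_mul, smul_eq_mul]
    refine ⟨ContinuousLinearEquiv.equivOfInverse f₁ f₂ ?_ ?_, ?_⟩
    · rintro ⟨x, y⟩
      simp only [hf₁, hf₂, ContinuousLinearMap.prod_apply, ContinuousLinearMap.coe_fst',
        _root_.smul_apply, _root_.sub_apply,
        ContinuousLinearMap.coe_snd', smul_eq_mul, Prod.mk.injEq, true_and]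
      rw [hAx x y]
      field_simp
      ring
    · rintro ⟨x, y⟩
      simp only [hf₁, hf₂, ContinuousLinearMap.prod_apply, ContinuousLinearMap.coe_fst',
        _root_.smul_apply, _root_.sub_apply,
        ContinuousLinearMap.coe_snd', smul_eq_mul, Prod.mk.injEq, true_and]
      rw [hAx]
      field_simp
      ring
    · have h4 : HasStrictFDerivAt Φ f₁ (s, z) := by
        exact hasStrictFDerivAt_fst.prodMk hGd
      exact h4
  have hlh : IsLocalHomeomorphOn Φ (Φ ⁻¹' S) := by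
    intro p hp
    obtain ⟨e, he⟩ := hloc p hp
    exact ⟨he.toOpenPartialHomeomorph Φ, he.mem_toOpenPartialHomeomorph_source, rfl⟩
  -- properness
  have hproper : IsProperMap Φ := by
    rw [isProperMap_iff_isCompact_preimage]
    refine ⟨hΦc, fun K hK => ?_⟩
    obtain ⟨C, hC⟩ := hK.isBounded.subset_closedBall (0 : ℂ × ℂ)
    obtain ⟨B, hB⟩ := hprop C
    refine (isCompact_closedBall (0 : ℂ × ℂ) (max C B)).of_isClosed_subset
      (hK.isClosed.preimage hΦc) ?_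
    intro p hp
    have h1 := hC hp
    rw [mem_closedBall_zero_iff, Prod.norm_def, max_le_iff] at h1
    rw [mem_closedBall_zero_iff, Prod.norm_def]
    exact max_le_max h1.1 (hB p.1 p.2 h1.1 h1.2)
  have hfin : ∀ x ∈ S, (Φ ⁻¹' {x}).Finite := by
    intro x hx
    apply (hproper.isCompact_preimage isCompact_singleton).finite
    apply IsDiscrete.of_openPartialHomeomorph Φ (x := x) subset_rfl
    intro e he
    have he' : e ∈ Φ ⁻¹' S := by
      rw [mem_preimage]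
      rw [mem_preimage, mem_singleton_iff] at he
      rw [he]; exact hx
    obtain ⟨φ, h1, h2⟩ := hlh e he'
    exact ⟨φ, h1, h2.symm⟩
  have hcov : IsCoveringMapOn Φ S :=
    hproper.isClosedMap.isCoveringMapOn_of_isLocalHomeomorphOn hfin hlh
  -- lifting
  have : ContractibleSpace (ball (0 : ℂ) δ) :=
    (convex_ball (0 : ℂ) δ).contractibleSpace ⟨0, mem_ball_self hδ⟩
  have : LocallyPathConnectedSpace (ball (0 : ℂ) δ) :=
    (convex_ball (0 : ℂ) δ).locallyPathConnectedSpace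
  set f : C(ball (0 : ℂ) δ, ℂ × ℂ) := ⟨fun a => ((a : ℂ), w), by fun_prop⟩ with hf
  obtain ⟨L, ⟨hL0, hL⟩, -⟩ := hcov.existsUnique_continuousMap_lifts f
    (a₀ := ⟨0, mem_ball_self hδ⟩) (e₀ := (0, u)) (by simp [hΦ, hG, hf, hu])
    (fun a => ⟨a.2, rfl⟩)
  have hL1 : ∀ a, (L a).1 = a ∧ F (L a).1 (L a).2 = w := by
    intro a
    have h1 := congrFun hL a
    simp only [Function.comp, hΦ, hG, hf, ContinuousMap.coe_mk, Prod.mk.injEq] at h1
    exact h1
  classical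
  set Z : ℂ → ℂ := fun s => if h : s ∈ ball (0 : ℂ) δ then (L ⟨s, h⟩).2 else 0 with hZ
  have hZs : ∀ s (h : s ∈ ball (0 : ℂ) δ), Z s = (L ⟨s, h⟩).2 := fun s h => by
    simp only [hZ, dif_pos h]
  have hZF : ∀ s ∈ ball (0 : ℂ) δ, F s (Z s) = w := by
    intro s h
    have h1 := hL1 ⟨s, h⟩
    rw [hZs s h]
    have h2 : (L ⟨s, h⟩).1 = s := h1.1
    rw [← h1.2, h2]
  have hZc : ContinuousOn Z (ball 0 δ) := by
    rw [continuousOn_iff_continuous_domRestrict]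
    have h1 : (ball (0 : ℂ) δ).domRestrict Z = fun a => (L a).2 := by
      funext a
      exact hZs a a.2
    rw [h1]
    exact continuous_snd.comp L.continuous
  refine ⟨Z, ?_, ?_, hZF⟩
  · intro s hs
    apply DifferentiableAt.differentiableWithinAt
    have hp : (s, Z s) ∈ Φ ⁻¹' S := ⟨hs, hZF s hs⟩
    obtain ⟨e, he⟩ := hloc _ hp
    have hinv := he.to_localInverse
    have hev : ∀ᶠ p in 𝓝 (s, Z s), he.localInverse Φ e (s, Z s) (Φ p) = p :=
      he.eventually_left_inverse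
    have hcs : ContinuousAt (fun t => ((t, Z t) : ℂ × ℂ)) s :=
      continuousAt_id.prodMk ((hZc s hs).continuousAt (isOpen_ball.mem_nhds hs))
    have h1 : ∀ᶠ t in 𝓝 s, he.localInverse Φ e (s, Z s) (Φ (t, Z t)) = (t, Z t) :=
      hcs.eventually hev
    have h2 : ∀ᶠ t in 𝓝 s, Z t = (he.localInverse Φ e (s, Z s) (t, w)).2 := by
      filter_upwards [h1, isOpen_ball.mem_nhds hs] with t ht1 ht2
      have h3 : Φ (t, Z t) = (t, w) := by
        simp only [hΦ, hG, hZF t ht2]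
      rw [h3] at ht1
      rw [ht1]
    have h3 : Φ (s, Z s) = (s, w) := by simp only [hΦ, hG, hZF s hs]
    rw [h3] at hinv
    have h4 : DifferentiableAt ℂ (fun t : ℂ => (he.localInverse Φ e (s, Z s) (t, w)).2) s := by
      have h5 : DifferentiableAt ℂ (fun t : ℂ => ((t, w) : ℂ × ℂ)) s := by fun_prop
      exact (hinv.hasFDerivAt.differentiableAt.comp s h5).snd
    exact h4.congr_of_eventuallyEq h2
  · rw [hZs 0 (mem_ball_self hδ), hL0]

end Pool.Agent.H713R2.SJ
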