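import Mathlib
import Pool.Agent.H713R2.TV.TV1

set_option autoImplicit false

open Topology Filter Metric Set

namespace Pool.Agent.H713R2.SJ

/-- Harnack's inequality for bounded zero-free holomorphic functions on a disc. -/
theorem zero_free_harnack {h : ℂ → ℂ} {δ B : ℝ} (hδ : 0 < δ)
    (hh : DifferentiableOn ℂ h (ball 0 δ)) (h0 : ∀ t ∈ ball (0 : ℂ) δ, h t ≠ 0)
    (hB : ∀ t ∈ ball (0 : ℂ) δ, ‖h t‖ < B) {t : ℂ} (ht : ‖t‖ ≤ δ / 2) :
    3 * Real.log (‖h t‖ / B) ≤ Real.log (‖h 0‖ / B) := by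
  have hc : (0 : ℂ) ∈ ball (0 : ℂ) δ := mem_ball_self hδ
  have htb : t ∈ ball (0 : ℂ) δ := by rw [mem_ball_zero_iff]; linarith
  have hhc : 0 < ‖h 0‖ := norm_pos_iff.mpr (h0 0 hc)
  have hht : 0 < ‖h t‖ := norm_pos_iff.mpr (h0 t htb)
  have hB0 : 0 < B := hhc.trans (hB 0 hc)
  obtain ⟨g, hg, hge⟩ := TV.exists_log_ball hδ hh h0
  set L : ℝ := Real.log B with hL
  have hnorm : ∀ t ∈ ball (0 : ℂ) δ, (g t).re = Real.log ‖h t‖ := by
    intro t ht
    rw [← hge t ht, Complex.norm_exp, Real.log_exp]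
  set v : ℂ → ℂ := fun t => g t - L with hv
  have hvr : ∀ t ∈ ball (0 : ℂ) δ, (v t).re = Real.log (‖h t‖ / B) := by
    intro t ht
    simp only [hv, Complex.sub_re, Complex.ofReal_re]
    rw [hnorm t ht, Real.log_div (norm_pos_iff.mpr (h0 t ht)).ne' hB0.ne']
  have hvre : ∀ t ∈ ball (0 : ℂ) δ, (v t).re < 0 := by
    intro t ht
    rw [hvr t ht]
    apply Real.log_neg (div_pos (norm_pos_iff.mpr (h0 t ht)) hB0)
    rw [div_lt_one hB0]
    exact hB t ht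
  have hvd : ∀ t ∈ ball (0 : ℂ) δ, DifferentiableAt ℂ v t := fun t ht =>
    ((hg t ht).sub_const _).differentiableAt
  have hden : ∀ t ∈ ball (0 : ℂ) δ, v t + (starRingEnd ℂ) (v 0) ≠ 0 := by
    intro t ht h1
    have h2 : (v t + (starRingEnd ℂ) (v 0)).re = 0 := by rw [h1]; rfl
    rw [Complex.add_re, Complex.conj_re] at h2
    have := hvre t ht
    have := hvre 0 hc
    linarith
  set φ : ℂ → ℂ := fun t => (v t - v 0) / (v t + (starRingEnd ℂ) (v 0)) with hφ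
  have hφd : DifferentiableOn ℂ φ (ball 0 δ) := by
    intro t ht
    exact (((hvd t ht).sub_const _).div ((hvd t ht).add_const _)
      (hden t ht)).differentiableWithinAt
  have hφc : φ 0 = 0 := by simp [hφ]
  have hφm : MapsTo φ (ball 0 δ) (closedBall (φ 0) 1) := by
    intro t ht
    rw [hφc, mem_closedBall_zero_iff]
    simp only [hφ]
    rw [norm_div, div_le_one (norm_pos_iff.mpr (hden t ht))]
    rw [← sq_le_sq₀ (norm_nonneg _) (norm_nonneg _), ← Complex.normSq_eq_norm_sq,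
      ← Complex.normSq_eq_norm_sq]
    simp only [Complex.normSq_apply, Complex.sub_re, Complex.sub_im, Complex.add_re,
      Complex.add_im, Complex.conj_re, Complex.conj_im]
    have h1 := hvre t ht
    have h2 := hvre 0 hc
    nlinarith [mul_pos_of_neg_of_neg h1 h2]
  have h1 := Complex.dist_le_div_mul_dist_of_mapsTo_ball hφd hφm htb
  rw [hφc, dist_zero_right, dist_zero_right] at h1
  have h2 : ‖φ t‖ ≤ 1 / 2 := by
    refine h1.trans ?_
    rw [div_mul_eq_mul_div, div_le_iff₀ hδ]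
    linarith
  simp only [hφ] at h2
  rw [norm_div, div_le_iff₀ (norm_pos_iff.mpr (hden t htb))] at h2
  have h3 : ‖v t - v 0‖ ^ 2 ≤ (1 / 2 * ‖v t + (starRingEnd ℂ) (v 0)‖) ^ 2 :=
    pow_le_pow_left₀ (norm_nonneg _) h2 2
  rw [mul_pow, ← Complex.normSq_eq_norm_sq, ← Complex.normSq_eq_norm_sq] at h3
  simp only [Complex.normSq_apply, Complex.sub_re, Complex.sub_im, Complex.add_re,
      Complex.add_im, Complex.conj_re, Complex.conj_im] at h3
  have h4 := hvre t htb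
  have h5 := hvre 0 hc
  rw [← hvr t htb, ← hvr 0 hc]
  set x := (v t).re
  set x0 := (v 0).re
  set y := (v t).im - (v 0).im with hy
  have h6 : (v t).im + -(v 0).im = y := by rw [hy]; ring
  rw [h6] at h3
  -- (x - x0)^2 + y^2 ≤ 1/4 ((x + x0)^2 + y^2)
  have h7 : (x - x0) ^ 2 ≤ 1 / 4 * (x + x0) ^ 2 := by nlinarith [sq_nonneg y]
  have h8 : |x - x0| ≤ (-(x + x0)) / 2 := by
    apply abs_le_of_sq_le_sq _ (by linarith)
    nlinarith
  have h9 := (abs_le.mp h8).2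
  linarith

/-- Two holomorphic functions on a disc which are approximated at the centre by holomorphic
functions avoiding both of them coincide. -/
theorem eq_of_avoid {x₁ x₂ : ℂ → ℂ} {δ B : ℝ} (hδ : 0 < δ)
    (h₁ : DifferentiableOn ℂ x₁ (ball 0 δ)) (h₂ : DifferentiableOn ℂ x₂ (ball 0 δ))
    {v : ℂ} (h₁0 : x₁ 0 = v) (h₂0 : x₂ 0 = v)
    (hZ : ∀ η : ℝ, 0 < η → ∃ Z : ℂ → ℂ, DifferentiableOn ℂ Z (ball 0 δ) ∧ ‖Z 0 - v‖ < η ∧
      (∀ t ∈ ball (0 : ℂ) δ, Z t ≠ x₁ t ∧ Z t ≠ x₂ t ∧ ‖Z t - x₁ t‖ < B ∧ ‖Z t - x₂ t‖ < B))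
    {t : ℂ} (ht : ‖t‖ ≤ δ / 2) : x₁ t = x₂ t := by
  have htb : t ∈ ball (0 : ℂ) δ := by rw [mem_ball_zero_iff]; linarith
  have hc : (0 : ℂ) ∈ ball (0 : ℂ) δ := mem_ball_self hδ
  have hB0 : 0 < B := by
    obtain ⟨Z, -, -, h⟩ := hZ 1 one_pos
    exact (norm_nonneg _).trans_lt (h 0 hc).2.2.1
  rw [← sub_eq_zero, ← norm_eq_zero]
  apply le_antisymm _ (norm_nonneg _)
  -- for every ε
  apply le_of_forall_pos_le_add
  intro ε hε
  rw [zero_add]
  set κ : ℝ := min (ε / 2) (B / 2) with hκ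
  have hκ0 : 0 < κ := lt_min (by linarith) (by linarith)
  have hκB : κ / B < 1 := by
    rw [div_lt_one hB0]
    exact (min_le_right _ _).trans_lt (by linarith)
  obtain ⟨Z, hZd, hZ0, hZa⟩ := hZ (B * (κ / B) ^ 3) (by positivity)
  have key : ∀ x : ℂ → ℂ, DifferentiableOn ℂ x (ball 0 δ) → x 0 = v →
      (∀ t ∈ ball (0 : ℂ) δ, Z t ≠ x t) → (∀ t ∈ ball (0 : ℂ) δ, ‖Z t - x t‖ < B) →
      ‖Z t - x t‖ ≤ κ := by
    intro x hx hx0 hne hlt
    have h1 := zero_free_harnack (h := fun t => Z t - x t) hδ (hZd.sub hx)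
      (fun t ht => sub_ne_zero.mpr (hne t ht)) hlt ht
    simp only [hx0] at h1
    have hpos0 : 0 < ‖Z 0 - v‖ := by
      rw [← hx0]; exact norm_pos_iff.mpr (sub_ne_zero.mpr (hne 0 hc))
    have hpost : 0 < ‖Z t - x t‖ := norm_pos_iff.mpr (sub_ne_zero.mpr (hne t htb))
    have h2 : Real.log (‖Z 0 - v‖ / B) ≤ Real.log ((κ / B) ^ 3) := by
      apply Real.log_le_log (div_pos hpos0 hB0)
      rw [div_le_iff₀ hB0, mul_comm]
      exact hZ0.le
    rw [Real.log_pow] at h2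
    push_cast at h2
    have h3 : Real.log (‖Z t - x t‖ / B) ≤ Real.log (κ / B) := by linarith
    have h4 := (Real.log_le_log_iff (div_pos hpost hB0) (div_pos hκ0 hB0)).mp h3
    rwa [div_le_div_iff_of_pos_right hB0] at h4
  have k1 := key x₁ h₁ h₁0 (fun t ht => (hZa t ht).1) (fun t ht => (hZa t ht).2.2.1)
  have k2 := key x₂ h₂ h₂0 (fun t ht => (hZa t ht).2.1) (fun t ht => (hZa t ht).2.2.2)
  calc ‖x₁ t - x₂ t‖ = ‖(Z t - x₂ t) - (Z t - x₁ t)‖ := by congr 1; ring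
    _ ≤ ‖Z t - x₂ t‖ + ‖Z t - x₁ t‖ := norm_sub_le _ _
    _ ≤ κ + κ := add_le_add k2 k1
    _ ≤ ε := by
      have := min_le_left (ε / 2) (B / 2)
      rw [← hκ] at this
      linarith

end Pool.Agent.H713R2.SJ
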