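import Mathlib
import Pool.Agent.H713R2.SJ.SJ1
import Pool.Agent.H713R2.SJ.SJ2
import Pool.Agent.H792R2.Dyn.Basic

set_option autoImplicit false

open Topology Filter Metric Set

namespace Pool.Agent.H713R2.SJ

open Pool.Agent.H792R2.Dyn

/-- A zero of the derivative of an iterate comes from a critical point on the orbit. -/
theorem exists_crit_of_iter {g : ℂ → ℂ} (hg : Differentiable ℂ g) (j : ℕ) {z : ℂ}
    (h : deriv (g^[j]) z = 0) : ∃ i < j, deriv g (g^[i] z) = 0 := by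
  induction j with
  | zero =>
    exfalso
    have h1 : deriv (id : ℂ → ℂ) z = 1 := (hasDerivAt_id z).deriv
    rw [Function.iterate_zero, h1] at h
    exact one_ne_zero h
  | succ j ih =>
    have h1 : HasDerivAt (g^[j]) (deriv (g^[j]) z) z := (hg.iterate j z).hasDerivAt
    have h2 : HasDerivAt g (deriv g (g^[j] z)) (g^[j] z) := (hg _).hasDerivAt
    have h3 := h2.comp z h1
    rw [Function.iterate_succ', h3.deriv, mul_eq_zero] at h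
    rcases h with h | h
    · exact ⟨j, by omega, h⟩
    · obtain ⟨i, hi, hi'⟩ := ih h
      exact ⟨i, by omega, hi'⟩

theorem iter_large {g : ℂ → ℂ} {R : ℝ} (hR : 0 < R) (hesc : ∀ z, R ≤ ‖z‖ → 2 * ‖z‖ ≤ ‖g z‖)
    {z : ℂ} (hz : R ≤ ‖z‖) (n : ℕ) : ‖z‖ ≤ ‖g^[n] z‖ := by
  induction n with
  | zero => simp
  | succ n ih =>
    rw [Function.iterate_succ_apply']
    have h1 := hesc _ (hz.trans ih)
    have := norm_nonneg (g^[n] z)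
    linarith

/-- The collision lemma. -/
theorem collision {f : ℂ → ℂ → ℂ} (hf : ContDiff ℂ 1 (fun p : ℂ × ℂ => f p.1 p.2))
    (hesc : ∀ K : ℝ, ∃ R : ℝ, 0 < R ∧ ∀ s, ‖s‖ ≤ K → ∀ z, R ≤ ‖z‖ → 2 * ‖z‖ ≤ ‖f s z‖)
    {δ R ρ : ℝ} (hδ : 0 < δ) (hR : 0 < R) (hRρ : R < ρ)
    (hescR : ∀ s ∈ ball (0 : ℂ) δ, ∀ z, R ≤ ‖z‖ → 2 * ‖z‖ ≤ ‖f s z‖)
    (hcrit : ∀ s ∈ ball (0 : ℂ) δ, ∀ y, deriv (f s) y = 0 → ∀ n, ‖(f s)^[n] y‖ ≠ ρ)
    {x₁ x₂ : ℂ → ℂ} (h₁ : DifferentiableOn ℂ x₁ (ball 0 δ))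
    (h₂ : DifferentiableOn ℂ x₂ (ball 0 δ))
    (hb₁ : ∀ s ∈ ball (0 : ℂ) δ, ∀ n, ‖(f s)^[n] (x₁ s)‖ < R)
    (hb₂ : ∀ s ∈ ball (0 : ℂ) δ, ∀ n, ‖(f s)^[n] (x₂ s)‖ < R) {v : ℂ}
    (h₁0 : x₁ 0 = v) (h₂0 : x₂ 0 = v)
    (hv : ∀ η : ℝ, 0 < η → ∃ u, ‖u - v‖ < η ∧ ∃ j, ‖(f 0)^[j] u‖ = ρ)
    {t : ℂ} (ht : ‖t‖ ≤ δ / 2) : x₁ t = x₂ t := by
  refine eq_of_avoid (B := 2 * ρ + 1) hδ h₁ h₂ h₁0 h₂0 ?_ ht
  intro η hη
  obtain ⟨u, hu, j, hj⟩ := hv η hη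
  set w := (f 0)^[j] u with hw
  have hprop : ∀ K : ℝ, ∃ B : ℝ, ∀ s z : ℂ, ‖s‖ ≤ K → ‖(f s)^[j] z‖ ≤ K → ‖z‖ ≤ B := by
    intro K
    obtain ⟨R', hR', h⟩ := hesc K
    refine ⟨max R' K, fun s z hs hz => ?_⟩
    rcases le_total R' ‖z‖ with h1 | h1
    · exact ((iter_large hR' (h s hs) h1 j).trans hz).trans (le_max_right _ _)
    · exact h1.trans (le_max_left _ _)
  have hsimple : ∀ s ∈ ball (0 : ℂ) δ, ∀ z, (f s)^[j] z = w → deriv ((f s)^[j]) z ≠ 0 := by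
    intro s hs z hz h0
    obtain ⟨i, hi, hi'⟩ := exists_crit_of_iter (diff_right hf s) j h0
    have h1 := hcrit s hs _ hi' (j - i)
    apply h1
    rw [← Function.iterate_add_apply, show j - i + i = j by omega, hz, hj]
  obtain ⟨Z, hZd, hZ0, hZ⟩ := exists_holo_root (F := fun s => (f s)^[j]) (contDiff_iter hf j)
    hprop hδ hsimple (u := u) rfl
  have hZle : ∀ s ∈ ball (0 : ℂ) δ, ‖Z s‖ ≤ ρ := by
    intro s hs
    rcases le_total R ‖Z s‖ with h1 | h1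
    · have h2 := iter_large hR (hescR s hs) h1 j
      have h3 : (f s)^[j] (Z s) = w := hZ s hs
      rw [h3, hj] at h2
      exact h2
    · linarith
  have hne : ∀ x : ℂ → ℂ, (∀ s ∈ ball (0 : ℂ) δ, ∀ n, ‖(f s)^[n] (x s)‖ < R) →
      ∀ s ∈ ball (0 : ℂ) δ, Z s ≠ x s ∧ ‖Z s - x s‖ < 2 * ρ + 1 := by
    intro x hx s hs
    refine ⟨?_, ?_⟩
    · intro h
      have h1 := hx s hs j
      rw [← h] at h1
      have h3 : (f s)^[j] (Z s) = w := hZ s hs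
      rw [h3, hj] at h1
      linarith
    · have h1 := hx s hs 0
      simp only [Function.iterate_zero, id] at h1
      have h2 := norm_sub_le (Z s) (x s)
      have h3 := hZle s hs
      linarith
  refine ⟨Z, hZd, ?_, ?_⟩
  · rw [hZ0]; exact hu
  · intro s hs
    exact ⟨(hne x₁ hb₁ s hs).1, (hne x₂ hb₂ s hs).1, (hne x₁ hb₁ s hs).2, (hne x₂ hb₂ s hs).2⟩

/-- Points on a given level near a limit of escaping points. -/
theorem exists_level {g : ℂ → ℂ} (hg : Continuous g) {ρ : ℝ} {v : ℂ}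
    (hv : ∀ n, ‖g^[n] v‖ < ρ)
    (hcl : v ∈ closure {z | Tendsto (fun k : ℕ => ‖g^[k] z‖) atTop atTop}) {η : ℝ} (hη : 0 < η) :
    ∃ u, ‖u - v‖ < η ∧ ∃ j, ‖g^[j] u‖ = ρ := by
  obtain ⟨u', hu', hdist⟩ := Metric.mem_closure_iff.mp hcl η hη
  obtain ⟨j, hj⟩ := (hu'.eventually (eventually_gt_atTop ρ)).exists
  have hc : Continuous (fun θ : ℝ => ‖g^[j] (v + θ * (u' - v))‖) :=
    ((hg.iterate j).comp (by fun_prop)).norm
  have h0 : ‖g^[j] (v + ((0 : ℝ) : ℂ) * (u' - v))‖ < ρ := by simpa using hv j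
  have h1 : ρ < ‖g^[j] (v + ((1 : ℝ) : ℂ) * (u' - v))‖ := by simpa using hj
  obtain ⟨θ, hθ, hθρ⟩ := intermediate_value_Icc (zero_le_one' ℝ) hc.continuousOn ⟨h0.le, h1.le⟩
  refine ⟨v + θ * (u' - v), ?_, j, hθρ⟩
  rw [add_sub_cancel_left, norm_mul, Complex.norm_real, Real.norm_eq_abs, abs_of_nonneg hθ.1]
  rw [dist_comm, dist_eq_norm] at hdist
  calc θ * ‖u' - v‖ ≤ 1 * ‖u' - v‖ := by
        apply mul_le_mul_of_nonneg_right hθ.2 (norm_nonneg _)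
    _ < η := by rw [one_mul]; exact hdist

end Pool.Agent.H713R2.SJ
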