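import Mathlib
import Pool.Agent.H713R2.SJ.SJ3

set_option autoImplicit false

open Topology Filter Metric Set

namespace Pool.Agent.H713R2.SJ

open Pool.Agent.H792R2.Dyn

theorem lt_of_not_esc {g : ℂ → ℂ} {R : ℝ} (hR : 0 < R) (hesc : ∀ z, R ≤ ‖z‖ → 2 * ‖z‖ ≤ ‖g z‖)
    {z : ℂ} (h : ¬ Tendsto (fun k : ℕ => ‖g^[k] z‖) atTop atTop) (n : ℕ) : ‖g^[n] z‖ < R := by
  by_contra h1
  push Not at h1
  apply h
  rw [← tendsto_add_atTop_iff_nat n]
  have h2 := attr_of_large hR hesc h1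
  simpa only [← Function.iterate_add_apply] using h2

/-- In the sink case nearby orbits do not escape. -/
theorem sink_not_esc {f : ℂ → ℂ → ℂ} (hf : ContDiff ℂ 1 (fun p : ℂ × ℂ => f p.1 p.2))
    {y : ℂ → ℂ} (hy : ContinuousAt y 0) {n : ℕ} (hn : 0 < n) {p₀ : ℂ}
    (hfix : (f 0)^[n] p₀ = p₀) (hmult : ‖deriv ((f 0)^[n]) p₀‖ < 1)
    (ht : Tendsto (fun k : ℕ => (f 0)^[n * k] (y 0)) atTop (𝓝 p₀)) :
    ∀ᶠ s in 𝓝 (0 : ℂ), ¬ Tendsto (fun k : ℕ => ‖(f s)^[k] (y s)‖) atTop atTop := by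
  -- contraction at `p₀`
  obtain ⟨lam, hlam1, hlam2⟩ := exists_between hmult
  have hlam0 : 0 ≤ lam := (norm_nonneg _).trans hlam1.le
  have hd : HasDerivAt ((f 0)^[n]) (deriv ((f 0)^[n]) p₀) p₀ :=
    (((diff_right hf 0).iterate n) p₀).hasDerivAt
  have h1 : ∀ᶠ z in 𝓝 p₀, ‖(f 0)^[n] z - p₀‖ ≤ lam * ‖z - p₀‖ := by
    have h2 := hd.hasFDerivAt.isLittleO.def (show 0 < lam - ‖deriv ((f 0)^[n]) p₀‖ by linarith)
    filter_upwards [h2] with z hz
    rw [hfix] at hz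
    have h3 : (ContinuousLinearMap.toSpanSingleton ℂ (deriv (f 0)^[n] p₀)) (z - p₀) =
        (z - p₀) * deriv ((f 0)^[n]) p₀ := by
      simp [ContinuousLinearMap.toSpanSingleton_apply]
    have h4 : ‖(f 0)^[n] z - p₀‖ ≤ ‖(f 0)^[n] z - p₀ -
        (ContinuousLinearMap.toSpanSingleton ℂ (deriv (f 0)^[n] p₀)) (z - p₀)‖ +
        ‖(z - p₀) * deriv ((f 0)^[n]) p₀‖ := by
      rw [h3]
      exact norm_le_norm_sub_add _ _
    rw [norm_mul] at h4
    have h5 : (lam - ‖deriv ((f 0)^[n]) p₀‖) * ‖z - p₀‖ + ‖z - p₀‖ * ‖deriv ((f 0)^[n]) p₀‖ =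
        lam * ‖z - p₀‖ := by ring
    linarith
  obtain ⟨η₀, hη₀, hball⟩ := Metric.mem_nhds_iff.1 h1
  set η := η₀ / 2 with hη
  have hηpos : 0 < η := by rw [hη]; linarith
  -- nearby maps map the closed ball into itself
  have h2 : ∀ᶠ s in 𝓝 (0 : ℂ), ∀ z ∈ closedBall p₀ η, (f s)^[n] z ∈ closedBall p₀ η := by
    have h3 : ∀ z ∈ closedBall p₀ η, ∀ᶠ q : ℂ × ℂ in 𝓝 ((0 : ℂ), z),
        (f q.1)^[n] q.2 ∈ closedBall p₀ η := by
      intro z hz
      have hc : Continuous (fun q : ℂ × ℂ => (f q.1)^[n] q.2) := (contDiff_iter hf n).continuous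
      have h4 : (f 0)^[n] z ∈ ball p₀ η := by
        rw [mem_ball, dist_eq_norm]
        have h5 : z ∈ ball p₀ η₀ := by
          rw [mem_ball]
          exact (mem_closedBall.mp hz).trans_lt (by rw [hη]; linarith)
        have h6 : ‖(f 0)^[n] z - p₀‖ ≤ lam * ‖z - p₀‖ := hball h5
        rw [mem_closedBall, dist_eq_norm] at hz
        have h7 : lam * ‖z - p₀‖ ≤ lam * η := mul_le_mul_of_nonneg_left hz hlam0
        have h8 : lam * η < 1 * η := mul_lt_mul_of_pos_right hlam2 hηpos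
        linarith
      have h9 := (hc.tendsto ((0 : ℂ), z)).eventually (isOpen_ball.mem_nhds h4)
      filter_upwards [h9] with q hq using ball_subset_closedBall hq
    exact (isCompact_closedBall p₀ η).eventually_forall_of_forall_eventually
      (P := fun s z => (f s)^[n] z ∈ closedBall p₀ η) h3
  obtain ⟨K, hK⟩ := (ht.eventually (Metric.ball_mem_nhds p₀ hηpos)).exists
  have h3 : ∀ᶠ s in 𝓝 (0 : ℂ), (f s)^[n * K] (y s) ∈ ball p₀ η := by
    have hc : Continuous (fun p : ℂ × ℂ => (f p.1)^[n * K] p.2) := (contDiff_iter hf _).continuous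
    have hcy : ContinuousAt (fun s => ((s, y s) : ℂ × ℂ)) 0 := continuousAt_id.prodMk hy
    have h4 : ContinuousAt (fun s => (f s)^[n * K] (y s)) 0 :=
      hc.continuousAt.comp (f := fun s => ((s, y s) : ℂ × ℂ)) hcy
    exact h4.eventually (isOpen_ball.mem_nhds hK)
  filter_upwards [h2, h3] with s hs2 hs3 hesc
  have h4 : ∀ k : ℕ, (f s)^[n * (k + K)] (y s) ∈ closedBall p₀ η := by
    intro k
    induction k with
    | zero => rw [zero_add]; exact ball_subset_closedBall hs3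
    | succ k ih =>
      have h5 : n * (k + 1 + K) = n + n * (k + K) := by ring
      rw [h5, Function.iterate_add_apply]
      exact hs2 _ ih
  obtain ⟨N, hN⟩ := Filter.eventually_atTop.1 (hesc.eventually (eventually_gt_atTop (‖p₀‖ + η)))
  have h5 := hN (n * (N + K)) (by nlinarith)
  have h6 := h4 N
  rw [mem_closedBall, dist_eq_norm] at h6
  have h7 : ‖(f s)^[n * (N + K)] (y s)‖ ≤ ‖(f s)^[n * (N + K)] (y s) - p₀‖ + ‖p₀‖ :=
    norm_le_norm_sub_add _ _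
  linarith

/-- The orbit of an attracted marked point avoids a generic level for nearby parameters. -/
theorem level_avoid {f : ℂ → ℂ → ℂ} (hf : ContDiff ℂ 1 (fun p : ℂ × ℂ => f p.1 p.2))
    {δ R ρ : ℝ} (hδ : 0 < δ) (hR : 0 < R) (hRρ : R < ρ)
    (hescR : ∀ s ∈ ball (0 : ℂ) δ, ∀ z, R ≤ ‖z‖ → 2 * ‖z‖ ≤ ‖f s z‖)
    {y : ℂ → ℂ} (hy : ContinuousAt y 0) (h : Attr (f 0) (y 0))
    (hne : ∀ n, ‖(f 0)^[n] (y 0)‖ ≠ ρ) :
    ∀ᶠ s in 𝓝 (0 : ℂ), ∀ n, ‖(f s)^[n] (y s)‖ ≠ ρ := by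
  have hcont : ∀ n, ContinuousAt (fun s => (f s)^[n] (y s)) 0 := by
    intro n
    have hc : Continuous (fun p : ℂ × ℂ => (f p.1)^[n] p.2) := (contDiff_iter hf _).continuous
    have hcy : ContinuousAt (fun s => ((s, y s) : ℂ × ℂ)) 0 := continuousAt_id.prodMk hy
    exact hc.continuousAt.comp (f := fun s => ((s, y s) : ℂ × ℂ)) hcy
  have hball := isOpen_ball.mem_nhds (mem_ball_self hδ : (0 : ℂ) ∈ ball (0 : ℂ) δ)
  rcases h with h | ⟨n, hn, p₀, hfix, hmult, ht⟩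
  · obtain ⟨N, hN⟩ := (h.eventually (eventually_gt_atTop ρ)).exists
    have h1 : ∀ᶠ s in 𝓝 (0 : ℂ), ρ < ‖(f s)^[N] (y s)‖ :=
      (hcont N).norm.eventually (Ioi_mem_nhds hN)
    have h2 : ∀ᶠ s in 𝓝 (0 : ℂ), ∀ n ∈ Finset.range N, ‖(f s)^[n] (y s)‖ ≠ ρ := by
      rw [Filter.eventually_all_finset]
      intro n _
      exact (hcont n).norm.eventually (isOpen_ne.mem_nhds (hne n))
    filter_upwards [h1, h2, hball] with s hs1 hs2 hs3 n
    rcases lt_or_ge n N with h3 | h3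
    · exact hs2 n (Finset.mem_range.mpr h3)
    · have h4 := iter_large hR (hescR s hs3) (z := (f s)^[N] (y s)) (by linarith) (n - N)
      rw [← Function.iterate_add_apply, show n - N + N = n by omega] at h4
      exact (hs1.trans_le h4).ne'
  · filter_upwards [sink_not_esc hf hy hn hfix hmult ht, hball] with s hs1 hs2 n
    exact ((lt_of_not_esc hR (hescR s hs2) hs1 n).trans hRρ).ne

end Pool.Agent.H713R2.SJ
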