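import Mathlib
import Pool.Agent.H713R2.SJ.SJ4

set_option autoImplicit false

open Topology Filter Metric Set

namespace Pool.Agent.H713R2.SJ

open Pool.Agent.H792R2.Dyn

/-- If two marked critical orbits meet in the boundary of the basin of infinity, and do not meet
identically, then arbitrarily close one of the non-attracted marked points becomes attracted. -/
theorem step {ι : Type} [Fintype ι] {f : ℂ → ℂ → ℂ}
    (hf : ContDiff ℂ 1 (fun p : ℂ × ℂ => f p.1 p.2))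
    (hesc : ∀ K : ℝ, ∃ R : ℝ, 0 < R ∧ ∀ s, ‖s‖ ≤ K → ∀ z, R ≤ ‖z‖ → 2 * ‖z‖ ≤ ‖f s z‖)
    (y : ι → ℂ → ℂ) (hy : ∀ i, Differentiable ℂ (y i)) {δ₀ : ℝ} (hδ₀ : 0 < δ₀)
    (hcov : ∀ s ∈ ball (0 : ℂ) δ₀, ∀ z, deriv (f s) z = 0 → ∃ i, z = y i s)
    (i₁ i₂ : ι) (a b : ℕ) (hna₁ : ¬ Attr (f 0) (y i₁ 0)) (hna₂ : ¬ Attr (f 0) (y i₂ 0))
    (heq : (f 0)^[a] (y i₁ 0) = (f 0)^[b] (y i₂ 0))
    (hcl : (f 0)^[a] (y i₁ 0) ∈ closure {z | Tendsto (fun k : ℕ => ‖(f 0)^[k] z‖) atTop atTop})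
    (hne : ∀ δ : ℝ, 0 < δ → ∃ t : ℂ, ‖t‖ < δ ∧ (f t)^[a] (y i₁ t) ≠ (f t)^[b] (y i₂ t))
    {δ : ℝ} (hδ : 0 < δ) :
    ∃ s : ℂ, ‖s‖ < δ ∧ (∃ i, ¬ Attr (f 0) (y i 0) ∧ Attr (f s) (y i s)) ∧
      ∀ i, Attr (f 0) (y i 0) → Attr (f s) (y i s) := by
  obtain ⟨R, hR, hescR⟩ := hesc 1
  -- a generic level
  obtain ⟨ρ, hρR, hρ⟩ : ∃ ρ ∈ Ioi R, ρ ∉ ⋃ i : ι, ⋃ n : ℕ, ({‖(f 0)^[n] (y i 0)‖} : Set ℝ) := by
    have hcount : (⋃ i : ι, ⋃ n : ℕ, ({‖(f 0)^[n] (y i 0)‖} : Set ℝ)).Countable :=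
      countable_iUnion fun i => countable_iUnion fun n => countable_singleton _
    obtain ⟨ρ, h1, h2⟩ := (hcount.dense_compl ℝ).inter_open_nonempty (Ioi R) isOpen_Ioi
      nonempty_Ioi
    exact ⟨ρ, h1, h2⟩
  have hρ' : ∀ i n, ‖(f 0)^[n] (y i 0)‖ ≠ ρ := by
    intro i n h
    apply hρ
    rw [mem_iUnion]
    refine ⟨i, ?_⟩
    rw [mem_iUnion]
    exact ⟨n, h.symm⟩
  have hev : ∀ᶠ s in 𝓝 (0 : ℂ), ∀ i, Attr (f 0) (y i 0) →
      (Attr (f s) (y i s) ∧ ∀ n, ‖(f s)^[n] (y i s)‖ ≠ ρ) := by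
    rw [Filter.eventually_all]
    intro i
    by_cases hi : Attr (f 0) (y i 0)
    · have h1 := attr_stable hf hR one_pos (fun a ha => hescR a ha.le) hi
      have hcy : Tendsto (fun s => ((s, y i s) : ℂ × ℂ)) (𝓝 0) (𝓝 (0, y i 0)) :=
        (continuousAt_id.prodMk (hy i).continuous.continuousAt)
      have h2 := level_avoid hf one_pos hR hρR
        (fun s hs => hescR s (mem_ball_zero_iff.mp hs).le) (hy i).continuous.continuousAt hi (hρ' i)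
      filter_upwards [hcy.eventually h1, h2] with s hs1 hs2 _
      exact ⟨hs1, hs2⟩
    · exact Filter.Eventually.of_forall fun s h => absurd h hi
  obtain ⟨δ', hδ', hball⟩ := Metric.mem_nhds_iff.1 hev
  set δ₁ := min (min δ' δ₀) (min δ 1) with hδ₁
  have hδ₁0 : 0 < δ₁ := lt_min (lt_min hδ' hδ₀) (lt_min hδ one_pos)
  have e1 : δ₁ ≤ δ' := (min_le_left _ _).trans (min_le_left _ _)
  have e2 : δ₁ ≤ δ₀ := (min_le_left _ _).trans (min_le_right _ _)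
  have e3 : δ₁ ≤ δ := (min_le_right _ _).trans (min_le_left _ _)
  have e4 : δ₁ ≤ 1 := (min_le_right _ _).trans (min_le_right _ _)
  by_contra hcon
  push Not at hcon
  have hstay : ∀ s ∈ ball (0 : ℂ) δ₁, ∀ i, ¬ Attr (f 0) (y i 0) → ¬ Attr (f s) (y i s) := by
    intro s hs i hi hatt
    rw [mem_ball_zero_iff] at hs
    obtain ⟨k, hk1, hk2⟩ := hcon s (hs.trans_le e3) ⟨i, hi, hatt⟩
    have hs' : s ∈ ball (0 : ℂ) δ' := by rw [mem_ball_zero_iff]; exact hs.trans_le e1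
    exact hk2 ((hball hs' k hk1).1)
  have hescb : ∀ s ∈ ball (0 : ℂ) δ₁, ∀ z, R ≤ ‖z‖ → 2 * ‖z‖ ≤ ‖f s z‖ := by
    intro s hs
    rw [mem_ball_zero_iff] at hs
    exact hescR s (hs.le.trans e4)
  have hbd : ∀ s ∈ ball (0 : ℂ) δ₁, ∀ i, ¬ Attr (f 0) (y i 0) → ∀ n, ‖(f s)^[n] (y i s)‖ < R := by
    intro s hs i hi n
    exact lt_of_not_esc hR (hescb s hs) (fun h => hstay s hs i hi (Or.inl h)) n
  have hcrit : ∀ s ∈ ball (0 : ℂ) δ₁, ∀ z, deriv (f s) z = 0 → ∀ n, ‖(f s)^[n] z‖ ≠ ρ := by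
    intro s hs z hz n
    obtain ⟨i, rfl⟩ := hcov s (ball_subset_ball e2 hs) z hz
    by_cases hi : Attr (f 0) (y i 0)
    · exact (hball (ball_subset_ball e1 hs) i hi).2 n
    · exact ((hbd s hs i hi n).trans hρR).ne
  have hdiff : ∀ i a, Differentiable ℂ (fun s => (f s)^[a] (y i s)) := by
    intro i a
    have h1 : Differentiable ℂ (fun p : ℂ × ℂ => (f p.1)^[a] p.2) :=
      (contDiff_iter hf a).differentiable (by norm_num)
    have h2 : Differentiable ℂ (fun s : ℂ => ((s, y i s) : ℂ × ℂ)) :=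
      differentiable_id.prodMk (hy i)
    exact h1.comp h2
  have hbx : ∀ i a, ¬ Attr (f 0) (y i 0) → ∀ s ∈ ball (0 : ℂ) δ₁, ∀ n,
      ‖(f s)^[n] ((f s)^[a] (y i s))‖ < R := by
    intro i a hi s hs n
    rw [← Function.iterate_add_apply]
    exact hbd s hs i hi _
  obtain ⟨t, ht, hteq⟩ := hne (δ₁ / 2) (by linarith)
  apply hteq
  have hlev := fun η (hη : 0 < η) => exists_level (g := f 0) (diff_right hf 0).continuous (ρ := ρ)
    (v := (f 0)^[a] (y i₁ 0))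
    (fun n => (hbx i₁ a hna₁ 0 (mem_ball_self hδ₁0) n).trans hρR) hcl (η := η) hη
  exact collision hf hesc hδ₁0 hR hρR hescb hcrit (hdiff i₁ a).differentiableOn
    (hdiff i₂ b).differentiableOn (hbx i₁ a hna₁) (hbx i₂ b hna₂) rfl heq.symm hlev ht.le

end Pool.Agent.H713R2.SJ
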