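import Mathlib
import Pool.Agent.H713R2.SJ.SJ5
import Pool.Agent.H792R2.Dyn.Family

set_option autoImplicit false

open Topology Filter Metric Set Polynomial

namespace Pool.Agent.H713R2.SJ

open Pool.Agent.H792R2.Dyn

/-- evaluation as a map -/
noncomputable def ev (T : ℂ[X]) : ℂ → ℂ := fun w => T.eval w

theorem family_esc {d : ℕ} (hd : 2 ≤ d) {p : ℂ → ℂ[X]} (hp : PF p)
    (hdeg : ∀ s, (p s).natDegree ≤ d) (hlead : ∀ s, (p s).coeff d = (p 0).coeff d)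
    (h0 : (p 0).coeff d ≠ 0) :
    ∀ K : ℝ, ∃ R : ℝ, 0 < R ∧ ∀ s, ‖s‖ ≤ K → ∀ z, R ≤ ‖z‖ → 2 * ‖z‖ ≤ ‖(p s).eval z‖ := by
  intro K
  -- bound of the coefficients
  have h1 : ∀ i : ℕ, ∃ A : ℝ, 0 ≤ A ∧ ∀ s, ‖s‖ ≤ K → ‖(p s).coeff i‖ ≤ A := by
    intro i
    obtain ⟨A, hA⟩ := (isCompact_closedBall (0 : ℂ) K).exists_bound_of_continuousOn
      (f := fun s => (p s).coeff i) (hp i).continuous.continuousOn
    refine ⟨max A 0, le_max_right _ _, fun s hs => ?_⟩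
    exact (hA s (mem_closedBall_zero_iff.mpr hs)).trans (le_max_left _ _)
  choose A hA0 hA using h1
  set B : ℝ := ∑ i ∈ Finset.range (d + 1), A i with hB
  have hB0 : 0 ≤ B := Finset.sum_nonneg fun i _ => hA0 i
  obtain ⟨R, hR1, hR⟩ := escape_radius hd (norm_pos_iff.mpr h0) hB0
  refine ⟨R, by linarith, fun s hs z hz => hR (p s) (hdeg s) (by rw [hlead s]) ?_ z hz⟩
  intro i
  by_cases hi : i ≤ d
  · exact (hA i s hs).trans (Finset.single_le_sum (fun j _ => hA0 j)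
      (Finset.mem_range.mpr (by omega)))
  · rw [Polynomial.coeff_eq_zero_of_natDegree_lt (lt_of_le_of_lt (hdeg s) (by omega)), norm_zero]
    exact hB0

theorem family_close {d : ℕ} {p : ℂ → ℂ[X]} (hp : PF p)
    (hdeg : ∀ s, (p s).natDegree ≤ d) {ε : ℝ} (hε : 0 < ε) :
    ∃ δ : ℝ, 0 < δ ∧ ∀ s, ‖s‖ < δ → ∀ i, ‖(p s).coeff i - (p 0).coeff i‖ < ε := by
  have h1 : ∀ᶠ s in 𝓝 (0 : ℂ), ∀ i ∈ Finset.range (d + 1), ‖(p s).coeff i - (p 0).coeff i‖ < ε := by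
    rw [Filter.eventually_all_finset]
    intro i _
    have hc : Continuous (fun s => ‖(p s).coeff i - (p 0).coeff i‖) :=
      ((hp i).continuous.sub continuous_const).norm
    have h0 : ‖(p 0).coeff i - (p 0).coeff i‖ < ε := by simpa using hε
    exact (hc.tendsto 0).eventually (Iio_mem_nhds h0)
  obtain ⟨δ, hδ, hball⟩ := Metric.mem_nhds_iff.1 h1
  refine ⟨δ, hδ, fun s hs i => ?_⟩
  by_cases hi : i ≤ d
  · exact hball (mem_ball_zero_iff.mpr hs) i (Finset.mem_range.mpr (by omega))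
  · rw [Polynomial.coeff_eq_zero_of_natDegree_lt (lt_of_le_of_lt (hdeg s) (by omega)),
      Polynomial.coeff_eq_zero_of_natDegree_lt (lt_of_le_of_lt (hdeg 0) (by omega))]
    simpa using hε

theorem poly_step {d : ℕ} (hd : 2 ≤ d) {p : ℂ → ℂ[X]} (hp : PF p)
    (hdeg : ∀ s, (p s).natDegree ≤ d) (hlead : ∀ s, (p s).coeff d = (p 0).coeff d)
    (h0 : (p 0).coeff d ≠ 0) {ι : Type} [Fintype ι] (y : ι → ℂ → ℂ)
    (hy : ∀ i, Differentiable ℂ (y i))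
    (hcov : ∀ s z, (derivative (p s)).eval z = 0 → ∃ i, z = y i s)
    (i₁ i₂ : ι) (a b : ℕ) (hna₁ : ¬ Attr (ev (p 0)) (y i₁ 0)) (hna₂ : ¬ Attr (ev (p 0)) (y i₂ 0))
    (heq : (ev (p 0))^[a] (y i₁ 0) = (ev (p 0))^[b] (y i₂ 0))
    (hcl : (ev (p 0))^[a] (y i₁ 0) ∈
      closure {z | Tendsto (fun k : ℕ => ‖(ev (p 0))^[k] z‖) atTop atTop})
    (hne : ∀ δ : ℝ, 0 < δ → ∃ t : ℂ, ‖t‖ < δ ∧
      (ev (p t))^[a] (y i₁ t) ≠ (ev (p t))^[b] (y i₂ t))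
    {ε : ℝ} (hε : 0 < ε) :
    ∃ s : ℂ, s ≠ 0 ∧ (p s).natDegree = d ∧ (∀ i, ‖(p s).coeff i - (p 0).coeff i‖ < ε) ∧
      (∃ i, ¬ Attr (ev (p 0)) (y i 0) ∧ Attr (ev (p s)) (y i s)) ∧
      ∀ i, Attr (ev (p 0)) (y i 0) → Attr (ev (p s)) (y i s) := by
  obtain ⟨δ, hδ, hclose⟩ := family_close hp hdeg hε
  have hf : ContDiff ℂ 1 (fun q : ℂ × ℂ => ev (p q.1) q.2) :=
    hp.contDiff_eval (N := d + 1) (fun s => lt_of_le_of_lt (hdeg s) (by omega))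
  have hderiv : ∀ s z, deriv (ev (p s)) z = (derivative (p s)).eval z := by
    intro s z
    exact (p s).deriv
  obtain ⟨s, hs, ⟨i, hi1, hi2⟩, hs3⟩ := step (f := fun s => ev (p s)) hf
    (family_esc hd hp hdeg hlead h0) y hy one_pos
    (fun s _ z hz => hcov s z (by rw [← hderiv]; exact hz)) i₁ i₂ a b hna₁ hna₂ heq hcl hne hδ
  refine ⟨s, ?_, ?_, hclose s hs, ⟨i, hi1, hi2⟩, hs3⟩
  · rintro rfl
    exact hi1 hi2
  · apply le_antisymm (hdeg s)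
    apply Polynomial.le_natDegree_of_ne_zero
    rw [hlead s]; exact h0

end Pool.Agent.H713R2.SJ
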