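import Mathlib
import Pool.Agent.H713R2.SJ.SJ6

set_option autoImplicit false

open Topology Filter Metric Set Polynomial

namespace Pool.Agent.H713R2.SJ

open Pool.Agent.H792R2.Dyn

/-- The basin of infinity. -/
def EB (T : ℂ[X]) : Set ℂ := {z | Tendsto (fun k : ℕ => ‖(ev T)^[k] z‖) atTop atTop}

/-- The Julia set: the boundary of the basin of infinity. -/
def JJ (T : ℂ[X]) : Set ℂ := frontier (EB T)

open Classical in
/-- The non-attracted critical points, with multiplicity. -/
noncomputable def naM (T : ℂ[X]) : Multiset ℂ :=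
  (derivative T).roots.filter (fun z => ¬ Attr (ev T) z)

theorem ev_contDiff (T : ℂ[X]) : ContDiff ℂ 1 (fun q : ℂ × ℂ => ev T q.2) :=
  (PF.const T).contDiff_eval (N := T.natDegree + 1) (fun _ => by omega)

theorem exists_esc_radius {T : ℂ[X]} (hd : 2 ≤ T.natDegree) :
    ∃ R : ℝ, 0 < R ∧ ∀ z, R ≤ ‖z‖ → 2 * ‖z‖ ≤ ‖ev T z‖ := by
  have hT : T.coeff T.natDegree ≠ 0 := by
    rw [Polynomial.coeff_natDegree, Ne, Polynomial.leadingCoeff_eq_zero]
    rintro rfl
    simp at hd
  obtain ⟨R, hR, h⟩ := family_esc hd (PF.const T) (fun _ => le_rfl) (fun _ => rfl) hT 1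
  exact ⟨R, hR, fun z hz => h 0 (by simp) z hz⟩

theorem isOpen_EB {T : ℂ[X]} (hd : 2 ≤ T.natDegree) : IsOpen (EB T) := by
  obtain ⟨R, hR, hesc⟩ := exists_esc_radius hd
  rw [isOpen_iff_mem_nhds]
  intro z hz
  obtain ⟨N, hN⟩ := (hz.eventually (eventually_gt_atTop R)).exists
  have hc : Continuous (fun w => ‖(ev T)^[N] w‖) := (T.continuous.iterate N).norm
  have h1 : ∀ᶠ w in 𝓝 z, R < ‖(ev T)^[N] w‖ := (hc.tendsto z).eventually (Ioi_mem_nhds hN)
  filter_upwards [h1] with w hw
  change Tendsto _ _ _
  rw [← tendsto_add_atTop_iff_nat N]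
  have h2 := attr_of_large hR hesc hw.le
  simpa only [← Function.iterate_add_apply] using h2

theorem not_attr_of_mem_JJ {T : ℂ[X]} (hd : 2 ≤ T.natDegree) {z : ℂ} (hz : z ∈ JJ T) :
    ¬ Attr (ev T) z := by
  have hz' : z ∈ closure (EB T) \ EB T := by
    have := hz
    unfold JJ at this
    rwa [(isOpen_EB hd).frontier_eq] at this
  rintro (h | ⟨n, hn, p₀, hfix, hmult, ht⟩)
  · exact hz'.2 h
  · have h1 := sink_not_esc (f := fun _ => ev T) (ev_contDiff T) (y := fun s => z + s)
      (by fun_prop) hn hfix hmult (by simpa using ht)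
    obtain ⟨δ, hδ, hball⟩ := Metric.mem_nhds_iff.1 h1
    obtain ⟨w, hw, hdist⟩ := Metric.mem_closure_iff.mp hz'.1 δ hδ
    have h2 : w - z ∈ ball (0 : ℂ) δ := by
      rw [mem_ball_zero_iff, ← dist_eq_norm, dist_comm]; exact hdist
    have h3 := hball h2
    apply h3
    have h4 : z + (w - z) = w := by ring
    rw [h4]
    exact hw

theorem iter_mem_closure {T : ℂ[X]} {z : ℂ} (hz : z ∈ closure (EB T)) (a : ℕ) :
    (ev T)^[a] z ∈ closure (EB T) := by
  have hc : Continuous ((ev T)^[a]) := T.continuous.iterate a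
  refine map_mem_closure hc hz ?_
  intro w hw
  change Tendsto _ _ _
  have h1 := (tendsto_add_atTop_iff_nat a).mpr hw
  simpa only [Function.iterate_add_apply] using h1

section counting

theorem filter_card_le {B : Multiset ℂ} {P Q : ℂ → Prop} [DecidablePred P] [DecidablePred Q] (h : ∀ r ∈ B, P r → Q r) :
    (B.filter P).card ≤ (B.filter Q).card := by
  rw [← Multiset.countP_eq_card_filter, ← Multiset.countP_eq_card_filter]
  rw [Multiset.countP_eq_card_filter, Multiset.countP_eq_card_filter]
  apply Multiset.card_le_card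
  rw [Multiset.le_filter]
  refine ⟨Multiset.filter_le _ _, ?_⟩
  intro r hr
  rw [Multiset.mem_filter] at hr
  exact h r hr.1 hr.2

theorem filter_card_lt {B : Multiset ℂ} {P Q : ℂ → Prop} [DecidablePred P] [DecidablePred Q] (h : ∀ r ∈ B, P r → Q r) {r : ℂ}
    (hr : r ∈ B) (hQ : Q r) (hP : ¬ P r) : (B.filter P).card < (B.filter Q).card := by
  apply Multiset.card_lt_card
  rw [lt_iff_le_and_ne]
  refine ⟨?_, ?_⟩
  · rw [Multiset.le_filter]
    refine ⟨Multiset.filter_le _ _, ?_⟩
    intro r hr
    rw [Multiset.mem_filter] at hr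
    exact h r hr.1 hr.2
  · intro heq
    have h1 : r ∈ B.filter Q := Multiset.mem_filter.mpr ⟨hr, hQ⟩
    rw [← heq, Multiset.mem_filter] at h1
    exact hP h1.2

theorem filter_fin_le {B : Multiset ℂ} {P Q : ℂ → Prop} [DecidablePred P] [DecidablePred Q] (h : ∀ r ∈ B, P r → Q r) :
    (B.filter P).toFinset.card ≤ (B.filter Q).toFinset.card := by
  apply Finset.card_le_card
  intro r hr
  rw [Multiset.mem_toFinset, Multiset.mem_filter] at hr ⊢
  exact ⟨hr.1, h r hr.1 hr.2⟩

theorem filter_fin_lt {B : Multiset ℂ} {P Q : ℂ → Prop} [DecidablePred P] [DecidablePred Q] (h : ∀ r ∈ B, P r → Q r) {r : ℂ}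
    (hr : r ∈ B) (hQ : Q r) (hP : ¬ P r) :
    (B.filter P).toFinset.card < (B.filter Q).toFinset.card := by
  apply Finset.card_lt_card
  rw [Finset.ssubset_iff_of_subset]
  · refine ⟨r, ?_, ?_⟩
    · rw [Multiset.mem_toFinset, Multiset.mem_filter]; exact ⟨hr, hQ⟩
    · rw [Multiset.mem_toFinset, Multiset.mem_filter]; exact fun h => hP h.2
  · intro r hr
    rw [Multiset.mem_toFinset, Multiset.mem_filter] at hr ⊢
    exact ⟨hr.1, h r hr.1 hr.2⟩

end counting

/-- Counting for a family in which `k` copies of a root move: `T' ~ k•{z₀} + B`,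
`S' ~ l•{z₀ + s} + B` with `l ≤ k`. -/
theorem count_step {T S : ℂ[X]} {B : Multiset ℂ} {z₀ z₁ : ℂ} {k l : ℕ} (hlk : l ≤ k) (hl : 1 ≤ l)
    (hT : (derivative T).roots = k • {z₀} + B) (hS : (derivative S).roots = l • {z₁} + B)
    (hz₀ : ¬ Attr (ev T) z₀)
    (hstay : ∀ r ∈ B, Attr (ev T) r → Attr (ev S) r)
    (hgain : Attr (ev S) z₁ ∨ ∃ r ∈ B, ¬ Attr (ev T) r ∧ Attr (ev S) r) :
    (naM S).card < (naM T).card ∧
      ((z₀ ∈ B → (naM S).toFinset.card ≤ (naM T).toFinset.card) ∧
      (z₀ ∉ B → (naM S).toFinset.card < (naM T).toFinset.card)) := by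
  classical
  have hmono : ∀ r ∈ B, ¬ Attr (ev S) r → ¬ Attr (ev T) r := fun r hr h1 h2 => h1 (hstay r hr h2)
  have e1 : naM T = k • {z₀} + B.filter (fun z => ¬ Attr (ev T) z) := by
    unfold naM
    rw [hT, Multiset.filter_add]
    congr 1
    rw [Multiset.filter_eq_self]
    intro a ha
    have : a = z₀ := by
      have := Multiset.mem_of_mem_nsmul ha
      simpa using this
    rw [this]; exact hz₀
  have e2 : naM S = (l • {z₁} : Multiset ℂ).filter (fun z => ¬ Attr (ev S) z) +
      B.filter (fun z => ¬ Attr (ev S) z) := by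
    unfold naM
    rw [hS, Multiset.filter_add]
  have e3 : (naM T).card = k + (B.filter (fun z => ¬ Attr (ev T) z)).card := by
    rw [e1]; simp
  have e4 : ((l • {z₁} : Multiset ℂ).filter (fun z => ¬ Attr (ev S) z)).card ≤ l := by
    refine (Multiset.card_le_card (Multiset.filter_le _ _)).trans ?_
    simp
  have e5 : (naM S).card = ((l • {z₁} : Multiset ℂ).filter (fun z => ¬ Attr (ev S) z)).card +
      (B.filter (fun z => ¬ Attr (ev S) z)).card := by
    rw [e2, Multiset.card_add]
  have e6 : (naM T).toFinset = {z₀} ∪ (B.filter (fun z => ¬ Attr (ev T) z)).toFinset := by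
    rw [e1]
    ext a
    simp only [Multiset.mem_toFinset, Multiset.mem_add, Finset.mem_union, Finset.mem_singleton]
    constructor
    · rintro (h | h)
      · left; simpa using Multiset.mem_of_mem_nsmul h
      · exact Or.inr h
    · rintro (h | h)
      · left
        rw [Multiset.mem_nsmul]
        exact ⟨by omega, by simpa using h⟩
      · exact Or.inr h
  have e7 : (naM S).toFinset ⊆ {z₁} ∪ (B.filter (fun z => ¬ Attr (ev S) z)).toFinset := by
    rw [e2]
    intro a
    simp only [Multiset.mem_toFinset, Multiset.mem_add, Finset.mem_union, Finset.mem_singleton]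
    rintro (h | h)
    · left
      have h1 := (Multiset.mem_filter.mp h).1
      simpa using Multiset.mem_of_mem_nsmul h1
    · exact Or.inr h
  by_cases h1 : Attr (ev S) z₁
  · have e8 : (l • {z₁} : Multiset ℂ).filter (fun z => ¬ Attr (ev S) z) = 0 := by
      rw [Multiset.filter_eq_nil]
      intro a ha h2
      have : a = z₁ := by simpa using Multiset.mem_of_mem_nsmul ha
      rw [this] at h2
      exact h2 h1
    have e9 : naM S = B.filter (fun z => ¬ Attr (ev S) z) := by rw [e2, e8, zero_add]
    refine ⟨?_, ?_, ?_⟩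
    · rw [e9, e3]
      have := filter_card_le hmono
      omega
    · intro _
      rw [e9]
      refine (filter_fin_le hmono).trans (Finset.card_le_card ?_)
      rw [e6]
      exact Finset.subset_union_right
    · intro hz
      rw [e9, e6, Finset.card_union_of_disjoint, Finset.card_singleton]
      · have := filter_fin_le hmono
        omega
      · rw [Finset.disjoint_singleton_left, Multiset.mem_toFinset, Multiset.mem_filter]
        exact fun h => hz h.1
  · obtain ⟨r, hr, hr1, hr2⟩ := hgain.resolve_left h1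
    have c1 := filter_card_lt hmono hr hr1 (not_not.mpr hr2)
    have c2 := filter_fin_lt hmono hr hr1 (not_not.mpr hr2)
    have c3 : (naM S).toFinset.card ≤
        1 + (B.filter (fun z => ¬ Attr (ev S) z)).toFinset.card := by
      refine (Finset.card_le_card e7).trans ((Finset.card_union_le _ _).trans ?_)
      rw [Finset.card_singleton]
    refine ⟨by omega, ?_, ?_⟩
    · intro _
      have c4 : (B.filter (fun z => ¬ Attr (ev T) z)).toFinset.card ≤ (naM T).toFinset.card := by
        rw [e6]
        exact Finset.card_le_card Finset.subset_union_right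
      omega
    · intro hz
      have c4 : (naM T).toFinset.card =
          1 + (B.filter (fun z => ¬ Attr (ev T) z)).toFinset.card := by
        rw [e6, Finset.card_union_of_disjoint, Finset.card_singleton]
        rw [Finset.disjoint_singleton_left, Multiset.mem_toFinset, Multiset.mem_filter]
        exact fun h => hz h.1
      omega

end Pool.Agent.H713R2.SJ
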