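import Mathlib
import Pool.Agent.H713R2.SJ.SJ7

set_option autoImplicit false

open Topology Filter Metric Set Polynomial

namespace Pool.Agent.H713R2.SJ

open Pool.Agent.H792R2.Dyn

theorem deriv_ne {T : ℂ[X]} (hd : 2 ≤ T.natDegree) : derivative T ≠ 0 := by
  intro h
  have := Polynomial.derivative_eq_zero.1 h
  omega

theorem coeff_ne {T : ℂ[X]} (hd : 2 ≤ T.natDegree) : T.coeff T.natDegree ≠ 0 := by
  rw [Polynomial.coeff_natDegree, Ne, Polynomial.leadingCoeff_eq_zero]
  rintro rfl
  simp at hd

/-- Splitting off a simple critical point from a multiple one. -/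
theorem redA {T : ℂ[X]} (hd : 2 ≤ T.natDegree) {p : ℂ} (hp : p ∈ JJ T)
    (hm : 2 ≤ (derivative T).rootMultiplicity p) {ε : ℝ} (hε : 0 < ε) :
    ∃ S : ℂ[X], S.natDegree = T.natDegree ∧ (∀ i : ℕ, ‖S.coeff i - T.coeff i‖ < ε) ∧
      (naM S).card < (naM T).card ∧ (naM S).toFinset.card ≤ (naM T).toFinset.card := by
  classical
  have hT' := deriv_ne hd
  have hdvd : (X - C p) ^ 2 ∣ derivative T := (pow_dvd_pow _ hm).trans
    (Polynomial.pow_rootMultiplicity_dvd _ _)
  obtain ⟨q₂, hq₂⟩ := hdvd
  set q : ℂ[X] := (X - C p) * q₂ with hq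
  have hTq : derivative T = (X - C p) * q := by rw [hq₂, hq]; ring
  have hq0 : q ≠ 0 := by
    intro h
    rw [hTq, h, mul_zero] at hT'
    exact hT' rfl
  have hqp : q.eval p = 0 := by simp [hq]
  -- degrees
  have hdegT' : (derivative T).natDegree ≤ T.natDegree - 1 := Polynomial.natDegree_derivative_le T
  have hdegq : q.natDegree + 1 ≤ T.natDegree - 1 := by
    have h1 : (derivative T).natDegree = (X - C p).natDegree + q.natDegree := by
      rw [hTq]; exact Polynomial.natDegree_mul (X_sub_C_ne_zero p) hq0
    rw [natDegree_X_sub_C] at h1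
    omega
  set h : ℂ[X] := anti T.natDegree q with hh
  have hh' : derivative h = q := derivative_anti (by omega)
  set ps : ℂ → ℂ[X] := fun s => T - C s * h with hps
  have hPF : PF ps := (PF.const T).sub (PF.C.mul (PF.const h))
  have hps0 : ps 0 = T := by simp [hps]
  have hcoef : h.coeff T.natDegree = 0 := by
    obtain ⟨m, hm'⟩ : ∃ m, T.natDegree = m + 1 := ⟨T.natDegree - 1, by omega⟩
    rw [hh, hm', anti_coeff_succ, if_pos (by omega),
      Polynomial.coeff_eq_zero_of_natDegree_lt (by omega), zero_div]
  have hdeg : ∀ s, (ps s).natDegree ≤ T.natDegree := by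
    intro s
    refine (Polynomial.natDegree_sub_le _ _).trans (max_le le_rfl ?_)
    exact (Polynomial.natDegree_C_mul_le _ _).trans (natDegree_anti_le _ _)
  have hlead : ∀ s, (ps s).coeff T.natDegree = (ps 0).coeff T.natDegree := by
    intro s
    simp [hps, hcoef]
  have hder : ∀ s, derivative (ps s) = (X - C (p + s)) * q := by
    intro s
    simp only [hps]
    rw [derivative_sub, derivative_C_mul, hh', hTq]
    simp only [C_add]
    ring
  have hlead0 : (ps 0).coeff T.natDegree ≠ 0 := by rw [hps0]; exact coeff_ne hd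
  -- marks
  set y : Option {z // z ∈ q.roots.toFinset} → ℂ → ℂ := fun i s =>
    match i with
    | none => p + s
    | some r => (r : ℂ) with hy
  have hyd : ∀ i, Differentiable ℂ (y i) := by
    intro i
    cases i with
    | none => simp only [hy]; fun_prop
    | some r => simp only [hy]; fun_prop
  have hcov : ∀ s z, (derivative (ps s)).eval z = 0 → ∃ i, z = y i s := by
    intro s z hz
    rw [hder s, eval_mul, mul_eq_zero] at hz
    rcases hz with hz | hz
    · refine ⟨none, ?_⟩
      simp only [hy]
      simpa [sub_eq_zero] using hz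
    · refine ⟨some ⟨z, ?_⟩, rfl⟩
      rw [Multiset.mem_toFinset, Polynomial.mem_roots hq0]
      exact hz
  have hpmem : p ∈ q.roots.toFinset := by
    rw [Multiset.mem_toFinset, Polynomial.mem_roots hq0]; exact hqp
  have hnap : ¬ Attr (ev T) p := not_attr_of_mem_JJ hd hp
  have hclp : p ∈ closure (EB T) := frontier_subset_closure hp
  -- non-identity
  have hne : ∀ δ : ℝ, 0 < δ → ∃ t : ℂ, ‖t‖ < δ ∧
      (ev (ps t))^[1] (y none t) ≠ (ev (ps t))^[1] (y (some ⟨p, hpmem⟩) t) := by
    intro δ hδ
    by_contra hcon
    push Not at hcon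
    have h1 : ∀ t ∈ ball (0 : ℂ) δ, T.eval (p + t) - T.eval p - t * (h.eval (p + t) - h.eval p)
        = 0 := by
      intro t ht
      have h2 := hcon t (mem_ball_zero_iff.mp ht)
      simp only [Function.iterate_one, ev, hy, hps, eval_sub, eval_mul, eval_C] at h2
      linear_combination h2
    have h2 : ∀ t ∈ ball (0 : ℂ) δ, h.eval (p + t) - h.eval p = 0 := by
      intro t ht
      have h3 : HasDerivAt (fun t => T.eval (p + t) - T.eval p - t * (h.eval (p + t) - h.eval p))
          ((derivative T).eval (p + t) - (1 * (h.eval (p + t) - h.eval p) +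
            t * (derivative h).eval (p + t))) t := by
        have e1 : HasDerivAt (fun t => T.eval (p + t)) ((derivative T).eval (p + t)) t :=
          (T.hasDerivAt (p + t)).comp_const_add p t
        have e2 : HasDerivAt (fun t => h.eval (p + t)) ((derivative h).eval (p + t)) t :=
          (h.hasDerivAt (p + t)).comp_const_add p t
        exact (e1.sub_const _).sub ((hasDerivAt_id t).mul (e2.sub_const _))
      have h4 : HasDerivAt (fun t => T.eval (p + t) - T.eval p - t * (h.eval (p + t) - h.eval p))
          0 t := by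
        refine (hasDerivAt_const t (0 : ℂ)).congr_of_eventuallyEq ?_
        filter_upwards [isOpen_ball.mem_nhds ht] with x hx
        exact h1 x hx
      have h5 := h3.unique h4
      rw [hh', hTq, eval_mul] at h5
      simp only [eval_sub, eval_X, eval_C] at h5
      linear_combination -h5
    have h3 : ∀ t ∈ ball (0 : ℂ) δ, q.eval (p + t) = 0 := by
      intro t ht
      have e2 : HasDerivAt (fun t => h.eval (p + t) - h.eval p) ((derivative h).eval (p + t)) t :=
        ((h.hasDerivAt (p + t)).comp_const_add p t).sub_const _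
      have h4 : HasDerivAt (fun t => h.eval (p + t) - h.eval p) 0 t := by
        refine (hasDerivAt_const t (0 : ℂ)).congr_of_eventuallyEq ?_
        filter_upwards [isOpen_ball.mem_nhds ht] with x hx
        exact h2 x hx
      rw [← hh']
      exact e2.unique h4
    apply hq0
    apply Polynomial.eq_zero_of_infinite_isRoot
    have hinf : (ball p δ : Set ℂ).Infinite := by
      apply infinite_of_mem_nhds p
      exact ball_mem_nhds p hδ
    refine hinf.mono ?_
    intro z hz
    have h4 := h3 (z - p) (by rw [mem_ball_zero_iff]; rwa [mem_ball, dist_eq_norm] at hz)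
    rw [add_sub_cancel] at h4
    exact h4
  obtain ⟨s, hs0, hsd, hsc, ⟨i, hi1, hi2⟩, hs3⟩ := poly_step hd hPF hdeg hlead hlead0 y hyd hcov
    none (some ⟨p, hpmem⟩) 1 1 (by simp only [hy, add_zero, hps0]; exact hnap)
    (by simp only [hy, hps0]; exact hnap)
    (by simp only [hy, add_zero]) (by
      simp only [hy, add_zero, hps0]
      exact iter_mem_closure hclp 1) hne hε
  rw [hps0] at hi1 hs3 hsc
  have hrT : (derivative T).roots = 1 • {p} + q.roots := by
    rw [hTq, Polynomial.roots_mul (by rw [← hTq]; exact hT'), Polynomial.roots_X_sub_C, one_smul]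
  have hrS : (derivative (ps s)).roots = 1 • {p + s} + q.roots := by
    rw [hder s, Polynomial.roots_mul (mul_ne_zero (X_sub_C_ne_zero _) hq0),
      Polynomial.roots_X_sub_C, one_smul]
  have hcount := count_step (T := T) (S := ps s) le_rfl le_rfl hrT hrS hnap
    (fun r hr h1 => hs3 (some ⟨r, Multiset.mem_toFinset.mpr hr⟩) h1) (by
      cases i with
      | none => exact Or.inl hi2
      | some r => exact Or.inr ⟨r, Multiset.mem_toFinset.mp r.2, hi1, hi2⟩)
  exact ⟨ps s, hsd, hsc, hcount.1, hcount.2.1 (Multiset.mem_toFinset.mp hpmem)⟩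

end Pool.Agent.H713R2.SJ
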