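import Mathlib
import Pool.Agent.H713R2.SJ.SJ8

set_option autoImplicit false

open Topology Filter Metric Set Polynomial

namespace Pool.Agent.H713R2.SJ

open Pool.Agent.H792R2.Dyn

/-- the orbit of `z` under `T + t`, as a polynomial in `t` -/
noncomputable def orb (T : ℂ[X]) (z : ℂ) : ℕ → ℂ[X]
  | 0 => C z
  | n + 1 => T.comp (orb T z n) + X

theorem eval_orb (T : ℂ[X]) (z t : ℂ) (n : ℕ) :
    (orb T z n).eval t = (ev (T + C t))^[n] z := by
  induction n with
  | zero => simp [orb]
  | succ n ih =>
    rw [Function.iterate_succ_apply', ← ih]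
    simp [orb, ev]

theorem orb_deg {T : ℂ[X]} (hd : 2 ≤ T.natDegree) (z : ℂ) (n : ℕ) :
    (orb T z (n + 1)).natDegree = T.natDegree ^ n := by
  induction n with
  | zero =>
    simp only [orb, comp_C, pow_zero]
    rw [add_comm]
    exact natDegree_X_add_C _
  | succ n ih =>
    rw [orb, natDegree_add_eq_left_of_natDegree_lt, natDegree_comp, ih, pow_succ, mul_comm]
    rw [natDegree_comp, ih, natDegree_X]
    have : 1 ≤ T.natDegree ^ n := Nat.one_le_pow _ _ (by omega)
    nlinarith

theorem orb_lead {T : ℂ[X]} (hd : 2 ≤ T.natDegree) (z z' : ℂ) (n : ℕ) :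
    (orb T z (n + 1)).leadingCoeff = (orb T z' (n + 1)).leadingCoeff := by
  induction n with
  | zero =>
    simp only [orb, comp_C]
    rw [add_comm, leadingCoeff_X_add_C, add_comm, leadingCoeff_X_add_C]
  | succ n ih =>
    have h : ∀ z, (orb T z (n + 1 + 1)).leadingCoeff =
        T.leadingCoeff * (orb T z (n + 1)).leadingCoeff ^ T.natDegree := by
      intro z
      have hpos : 1 ≤ T.natDegree ^ n := Nat.one_le_pow _ _ (by omega)
      rw [orb, leadingCoeff_add_of_degree_lt', leadingCoeff_comp]
      · rw [orb_deg hd]; omega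
      · apply Polynomial.degree_lt_degree
        rw [natDegree_comp, orb_deg hd, natDegree_X]
        nlinarith
    rw [h z, h z', ih]

/-- injectivity of composition among polynomials with the same leading term -/
theorem comp_inj {T A B : ℂ[X]} (hd : 1 ≤ T.natDegree) {D : ℕ} (hA : A.natDegree = D)
    (hB : B.natDegree = D) (hD : 1 ≤ D) (hl : A.leadingCoeff = B.leadingCoeff)
    (h : T.comp A = T.comp B) : A = B := by
  by_contra hne
  set d := T.natDegree with hdd
  set Q : ℂ[X] := ∑ n ∈ Finset.range (d + 1), C (T.coeff n) *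
    ∑ k ∈ Finset.range n, A ^ k * B ^ (n - 1 - k) with hQ
  have h1 : Q * (A - B) = T.comp A - T.comp B := by
    rw [Polynomial.comp, Polynomial.comp, Polynomial.eval₂_eq_sum_range,
      Polynomial.eval₂_eq_sum_range, ← Finset.sum_sub_distrib, hQ, Finset.sum_mul]
    apply Finset.sum_congr rfl
    intro n _
    rw [mul_assoc, geom_sum₂_mul]
    ring
  rw [h, sub_self, mul_eq_zero] at h1
  have hQ0 : Q = 0 := h1.resolve_right (sub_ne_zero.mpr hne)
  have hA0 : A ≠ 0 := by rintro rfl; simp at hA; omega
  have hB0 : B ≠ 0 := by rintro rfl; simp at hB; omega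
  have h2 : Q.coeff (D * (d - 1)) = T.coeff d * (d * A.leadingCoeff ^ (d - 1)) := by
    rw [hQ, Polynomial.finsetSum_coeff, Finset.sum_eq_single d]
    · rw [Polynomial.coeff_C_mul, Polynomial.finsetSum_coeff]
      congr 1
      have h3 : ∀ k ∈ Finset.range d, (A ^ k * B ^ (d - 1 - k)).coeff (D * (d - 1)) =
          A.leadingCoeff ^ (d - 1) := by
        intro k hk
        rw [Finset.mem_range] at hk
        have h4 : (A ^ k * B ^ (d - 1 - k)).natDegree = D * (d - 1) := by
          rw [natDegree_mul (pow_ne_zero _ hA0) (pow_ne_zero _ hB0), natDegree_pow, natDegree_pow,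
            hA, hB, ← add_mul, mul_comm]
          congr 1
          omega
        rw [← h4, Polynomial.coeff_natDegree, leadingCoeff_mul, leadingCoeff_pow, leadingCoeff_pow,
          ← hl, ← pow_add]
        congr 1
        omega
      rw [Finset.sum_congr rfl h3]
      simp
    · intro n hn hnd
      rw [Finset.mem_range] at hn
      rw [Polynomial.coeff_C_mul, Polynomial.finsetSum_coeff]
      rw [Finset.sum_eq_zero, mul_zero]
      intro k hk
      rw [Finset.mem_range] at hk
      apply Polynomial.coeff_eq_zero_of_natDegree_lt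
      rw [natDegree_mul (pow_ne_zero _ hA0) (pow_ne_zero _ hB0), natDegree_pow, natDegree_pow,
        hA, hB, ← add_mul, mul_comm]
      apply Nat.mul_lt_mul_of_pos_left _ (by omega)
      omega
    · intro h3
      exact absurd (Finset.mem_range.mpr (by omega)) h3
  rw [hQ0, Polynomial.coeff_zero] at h2
  have h3 : T.coeff d ≠ 0 := by
    rw [hdd, Polynomial.coeff_natDegree, Ne, leadingCoeff_eq_zero]
    rintro rfl
    simp [hdd] at hd
  have h4 : (d : ℂ) ≠ 0 := by exact_mod_cast (by omega : d ≠ 0)
  have h5 : A.leadingCoeff ^ (d - 1) ≠ 0 := pow_ne_zero _ (leadingCoeff_ne_zero.mpr hA0)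
  exact mul_ne_zero h3 (mul_ne_zero h4 h5) h2.symm

theorem orb_ne {T : ℂ[X]} (hd : 2 ≤ T.natDegree) {z z' : ℂ} {a b : ℕ} (hzz : (z, a) ≠ (z', b))
    (h : a ≠ b ∨ T.eval z ≠ T.eval z') : orb T z a ≠ orb T z' b := by
  by_cases hab : a = b
  · subst hab
    have h' : T.eval z ≠ T.eval z' := h.resolve_left (by simp)
    cases a with
    | zero =>
      intro h1
      apply hzz
      have : z = z' := by simpa [orb] using h1
      rw [this]
    | succ n =>
      clear hzz h
      induction n with
      | zero =>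
        intro h1
        apply h'
        have h2 := congrArg (fun q : ℂ[X] => q.eval 0) h1
        simpa [orb] using h2
      | succ n ih =>
        intro h1
        rw [orb, orb.eq_2 T z' (n + 1)] at h1
        have h2 := add_right_cancel h1
        exact ih (comp_inj (by omega) (orb_deg hd z n) (orb_deg hd z' n)
          (Nat.one_le_pow _ _ (by omega)) (orb_lead hd z z' n) h2)
  · intro h1
    have h2 := congrArg natDegree h1
    have hdeg0 : ∀ z, (orb T z 0).natDegree = 0 := fun z => by simp [orb]
    cases a with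
    | zero =>
      cases b with
      | zero => exact hab rfl
      | succ b =>
        rw [hdeg0, orb_deg hd] at h2
        have : 1 ≤ T.natDegree ^ b := Nat.one_le_pow _ _ (by omega)
        omega
    | succ a =>
      cases b with
      | zero =>
        rw [hdeg0, orb_deg hd] at h2
        have : 1 ≤ T.natDegree ^ a := Nat.one_le_pow _ _ (by omega)
        omega
      | succ b =>
        rw [orb_deg hd, orb_deg hd] at h2
        have := Nat.pow_right_injective (by omega : 2 ≤ T.natDegree) h2
        omega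

/-- Breaking a critical orbit relation with the constant term. -/
theorem redB {T : ℂ[X]} (hd : 2 ≤ T.natDegree) {z z' : ℂ} (hz : z ∈ JJ T) (hz' : z' ∈ JJ T)
    (hc : (derivative T).eval z = 0) (hc' : (derivative T).eval z' = 0) {a b : ℕ}
    (hrel : (ev T)^[a] z = (ev T)^[b] z') (hzz : (z, a) ≠ (z', b))
    (h : a ≠ b ∨ T.eval z ≠ T.eval z') {ε : ℝ} (hε : 0 < ε) :
    ∃ S : ℂ[X], S.natDegree = T.natDegree ∧ (∀ i : ℕ, ‖S.coeff i - T.coeff i‖ < ε) ∧
      (naM S).card < (naM T).card ∧ (naM S).toFinset.card < (naM T).toFinset.card := by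
  classical
  have hT' := deriv_ne hd
  set ps : ℂ → ℂ[X] := fun s => T + C s with hps
  have hPF : PF ps := (PF.const T).add PF.C
  have hps0 : ps 0 = T := by simp [hps]
  have hdeg : ∀ s, (ps s).natDegree ≤ T.natDegree := by
    intro s
    simp only [hps, natDegree_add_C]
    exact le_rfl
  have hlead : ∀ s, (ps s).coeff T.natDegree = (ps 0).coeff T.natDegree := by
    intro s
    have : T.natDegree ≠ 0 := by omega
    simp [hps, coeff_C, this]
  have hder : ∀ s, derivative (ps s) = derivative T := by
    intro s; simp [hps]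
  have hlead0 : (ps 0).coeff T.natDegree ≠ 0 := by rw [hps0]; exact coeff_ne hd
  set y : {z // z ∈ (derivative T).roots.toFinset} → ℂ → ℂ := fun i _ => (i : ℂ) with hy
  have hmem : ∀ z, (derivative T).eval z = 0 → z ∈ (derivative T).roots.toFinset := fun z h1 => by
    rw [Multiset.mem_toFinset, Polynomial.mem_roots hT']; exact h1
  have hcov : ∀ s z, (derivative (ps s)).eval z = 0 → ∃ i, z = y i s := by
    intro s z h1
    rw [hder s] at h1
    exact ⟨⟨z, hmem z h1⟩, rfl⟩
  have hne : ∀ δ : ℝ, 0 < δ → ∃ t : ℂ, ‖t‖ < δ ∧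
      (ev (ps t))^[a] (y ⟨z, hmem z hc⟩ t) ≠ (ev (ps t))^[b] (y ⟨z', hmem z' hc'⟩ t) := by
    intro δ hδ
    by_contra hcon
    push Not at hcon
    apply orb_ne hd hzz h
    rw [← sub_eq_zero]
    apply Polynomial.eq_zero_of_infinite_isRoot
    have hinf : (ball (0 : ℂ) δ : Set ℂ).Infinite :=
      infinite_of_mem_nhds 0 (ball_mem_nhds 0 hδ)
    refine hinf.mono ?_
    intro t ht
    change (orb T z a - orb T z' b).eval t = 0
    rw [eval_sub, eval_orb, eval_orb, sub_eq_zero]
    exact hcon t (mem_ball_zero_iff.mp ht)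
  obtain ⟨s, hs0, hsd, hsc, ⟨i, hi1, hi2⟩, hs3⟩ := poly_step hd hPF hdeg hlead hlead0 y
    (fun i => by simp only [hy]; fun_prop) hcov ⟨z, hmem z hc⟩ ⟨z', hmem z' hc'⟩ a b
    (by simp only [hy, hps0]; exact not_attr_of_mem_JJ hd hz)
    (by simp only [hy, hps0]; exact not_attr_of_mem_JJ hd hz')
    (by simp only [hy, hps0]; exact hrel)
    (by simp only [hy, hps0]; exact iter_mem_closure (frontier_subset_closure hz) a) hne hε
  rw [hps0] at hi1 hs3 hsc
  have hmono : ∀ r ∈ (derivative T).roots, ¬ Attr (ev (ps s)) r → ¬ Attr (ev T) r :=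
    fun r hr h1 h2 => h1 (hs3 ⟨r, Multiset.mem_toFinset.mpr hr⟩ h2)
  refine ⟨ps s, hsd, hsc, ?_, ?_⟩
  · unfold naM
    rw [hder s]
    exact filter_card_lt hmono (Multiset.mem_toFinset.mp i.2) hi1 (not_not.mpr hi2)
  · unfold naM
    rw [hder s]
    exact filter_fin_lt hmono (Multiset.mem_toFinset.mp i.2) hi1 (not_not.mpr hi2)

end Pool.Agent.H713R2.SJ
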