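import Mathlib
import Pool.Agent.H713R2.SJ.SJ9

set_option autoImplicit false

open Topology Filter Metric Set Polynomial

namespace Pool.Agent.H713R2.SJ

open Pool.Agent.H792R2.Dyn

/-- the primitive vanishing at `c` -/
noncomputable def prim (c : ℂ) (P : ℂ[X]) : ℂ[X] :=
  anti (P.natDegree + 1) P - C ((anti (P.natDegree + 1) P).eval c)

theorem derivative_prim (c : ℂ) (P : ℂ[X]) : derivative (prim c P) = P := by
  unfold prim
  rw [derivative_sub, derivative_C, sub_zero, derivative_anti (by omega)]

theorem prim_eval (c : ℂ) (P : ℂ[X]) : (prim c P).eval c = 0 := by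
  unfold prim
  rw [eval_sub, eval_C, sub_self]

theorem eq_of_derivative {A B : ℂ[X]} (h : derivative A = derivative B) {c : ℂ}
    (hc : A.eval c = B.eval c) : A = B := by
  have h1 : derivative (A - B) = 0 := by rw [derivative_sub, h, sub_self]
  have h2 := Polynomial.natDegree_eq_zero_of_derivative_eq_zero h1
  have h3 : (A - B).eval c = 0 := by rw [eval_sub, hc, sub_self]
  rw [← sub_eq_zero]
  rw [Polynomial.eq_C_of_natDegree_eq_zero h2, eval_C] at h3
  rw [Polynomial.eq_C_of_natDegree_eq_zero h2, h3, C_0]

theorem prim_ne {c : ℂ} {P : ℂ[X]} (h : P ≠ 0) : prim c P ≠ 0 := by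
  intro h1
  apply h
  rw [← derivative_prim c P, h1, derivative_zero]

theorem prim_parts (c w : ℂ) (m : ℕ) (P : ℂ[X]) :
    (prim c ((X - C w) ^ (m + 1) * P)).eval w =
      -((m : ℂ) + 1) * (prim c ((X - C w) ^ m * prim c P)).eval w := by
  have h1 : prim c ((X - C w) ^ (m + 1) * P) =
      (X - C w) ^ (m + 1) * prim c P - C ((m : ℂ) + 1) * prim c ((X - C w) ^ m * prim c P) := by
    apply eq_of_derivative (c := c)
    · rw [derivative_prim, derivative_sub, derivative_mul, derivative_C_mul, derivative_prim,
        derivative_prim, derivative_pow]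
      simp only [derivative_sub, derivative_X, derivative_C, sub_zero, mul_one, Nat.add_sub_cancel,
        Nat.cast_add, Nat.cast_one, map_add, map_natCast, map_one]
      ring
    · rw [prim_eval, eval_sub, eval_mul, eval_mul, prim_eval, prim_eval]
      ring
  rw [h1, eval_sub, eval_mul, eval_mul, eval_pow, eval_sub, eval_X, eval_C, sub_self,
    zero_pow (by omega), eval_C]
  ring

theorem prim_iter (c w : ℂ) (m : ℕ) (P : ℂ[X]) :
    (prim c ((X - C w) ^ m * P)).eval w =
      (-1) ^ m * (m.factorial : ℂ) * ((prim c)^[m + 1] P).eval w := by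
  induction m generalizing P with
  | zero => simp
  | succ m ih =>
    rw [prim_parts, ih, Function.iterate_succ_apply (prim c) (m + 1) P, Nat.factorial_succ]
    push_cast
    ring

theorem prim_iter_ne (c : ℂ) (m : ℕ) {P : ℂ[X]} (h : P ≠ 0) : (prim c)^[m] P ≠ 0 := by
  induction m generalizing P with
  | zero => exact h
  | succ m ih =>
    rw [Function.iterate_succ_apply]
    exact ih (prim_ne h)

theorem PF.pow {p : ℂ → ℂ[X]} (hp : PF p) (m : ℕ) : PF (fun s => p s ^ m) := by
  induction m with
  | zero => simpa using PF.const 1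
  | succ m ih =>
    simp only [pow_succ]
    exact ih.mul hp

/-- Two critical points with the same value: move one of them. -/
theorem redC {T : ℂ[X]} (hd : 2 ≤ T.natDegree) {z z' : ℂ} (hz : z ∈ JJ T) (hz' : z' ∈ JJ T)
    (hc : (derivative T).eval z = 0) (hc' : (derivative T).eval z' = 0)
    (hrel : T.eval z = T.eval z') (hzz : z ≠ z') {ε : ℝ} (hε : 0 < ε) :
    ∃ S : ℂ[X], S.natDegree = T.natDegree ∧ (∀ i : ℕ, ‖S.coeff i - T.coeff i‖ < ε) ∧
      (naM S).card < (naM T).card ∧ (naM S).toFinset.card < (naM T).toFinset.card := by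
  classical
  have hT' := deriv_ne hd
  obtain ⟨q, hTq, hqz⟩ := Polynomial.exists_eq_pow_rootMultiplicity_mul_and_not_dvd
    (derivative T) hT' z
  set μ := (derivative T).rootMultiplicity z with hμ
  have hμ1 : 1 ≤ μ := by
    rw [hμ]
    exact (Polynomial.rootMultiplicity_pos hT').mpr hc
  have hq0 : q ≠ 0 := by
    rintro rfl
    rw [mul_zero] at hTq
    exact hT' hTq
  have hqz' : z ∉ q.roots := by
    rw [Polynomial.mem_roots hq0]
    intro h
    exact hqz (Polynomial.dvd_iff_isRoot.mpr h)
  have hz'q : q.eval z' = 0 := by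
    rw [hTq, eval_mul, eval_pow, mul_eq_zero] at hc'
    rcases hc' with h | h
    · exfalso
      have := pow_eq_zero_iff (by omega) |>.mp h
      rw [eval_sub, eval_X, eval_C, sub_eq_zero] at this
      exact hzz this.symm
    · exact h
  have hdT : (derivative T).natDegree = T.natDegree - 1 := by
    apply le_antisymm (Polynomial.natDegree_derivative_le T)
    apply Polynomial.le_natDegree_of_ne_zero
    rw [Polynomial.coeff_derivative]
    have h1 : T.natDegree - 1 + 1 = T.natDegree := by omega
    rw [h1]
    apply mul_ne_zero (coeff_ne hd)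
    exact_mod_cast (by omega : T.natDegree - 1 + 1 ≠ 0)
  -- the derivative family
  set D : ℂ → ℂ[X] := fun s => (X - C (z + s)) ^ μ * q with hD
  have hDdeg : ∀ s, (D s).natDegree = T.natDegree - 1 := by
    intro s
    simp only [hD]
    rw [natDegree_mul (pow_ne_zero _ (X_sub_C_ne_zero _)) hq0, natDegree_pow, natDegree_X_sub_C,
      ← hdT]
    conv_rhs => rw [hTq]
    rw [natDegree_mul (pow_ne_zero _ (X_sub_C_ne_zero _)) hq0, natDegree_pow, natDegree_X_sub_C]
  have hDlead : ∀ s, (D s).coeff (T.natDegree - 1) = q.leadingCoeff := by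
    intro s
    have h1 := hDdeg s
    rw [← h1, Polynomial.coeff_natDegree]
    simp only [hD]
    rw [leadingCoeff_mul, leadingCoeff_pow, leadingCoeff_X_sub_C, one_pow, one_mul]
  have hPFD : PF D := by
    have h1 : PF (fun s => X - C (z + s)) := by
      have h2 : (fun s => (X : ℂ[X]) - C (z + s)) = fun s => (X - C z) - C s := by
        funext s; rw [C_add]; ring
      rw [h2]
      exact (PF.const _).sub PF.C
    exact (PF.pow h1 μ).mul (PF.const q)
  set ps : ℂ → ℂ[X] := fun s => C (T.coeff 0) + anti T.natDegree (D s) with hps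
  have hPF : PF ps := (PF.const _).add (PF.anti _ hPFD)
  have hder : ∀ s, derivative (ps s) = D s := by
    intro s
    simp only [hps]
    rw [derivative_add, derivative_C, zero_add, derivative_anti (by rw [hDdeg s]; omega)]
  have hps0 : ps 0 = T := by
    apply eq_of_derivative (c := 0)
    · rw [hder 0, hTq]
      simp only [hD, add_zero]
    · simp only [hps]
      rw [← Polynomial.coeff_zero_eq_eval_zero, ← Polynomial.coeff_zero_eq_eval_zero,
        Polynomial.coeff_add, anti_coeff_zero, Polynomial.coeff_C_zero, add_zero]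
  have hdeg : ∀ s, (ps s).natDegree ≤ T.natDegree := by
    intro s
    refine (Polynomial.natDegree_add_le _ _).trans (max_le ?_ (natDegree_anti_le _ _))
    rw [natDegree_C]; omega
  have hleads : ∀ s, (ps s).coeff T.natDegree = q.leadingCoeff / ((T.natDegree - 1 : ℕ) + 1) := by
    intro s
    obtain ⟨m, hm⟩ : ∃ m, T.natDegree = m + 1 := ⟨T.natDegree - 1, by omega⟩
    have h1 := hDlead s
    simp only [hps]
    rw [hm] at h1 ⊢
    rw [Nat.add_sub_cancel] at h1
    rw [Polynomial.coeff_add, anti_coeff_succ, if_pos (by omega), h1, Polynomial.coeff_C,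
      if_neg (by omega), zero_add, Nat.add_sub_cancel]
  have hlead : ∀ s, (ps s).coeff T.natDegree = (ps 0).coeff T.natDegree := fun s => by
    rw [hleads s, hleads 0]
  have hlead0 : (ps 0).coeff T.natDegree ≠ 0 := by rw [hps0]; exact coeff_ne hd
  -- marks
  set y : Option {z // z ∈ q.roots.toFinset} → ℂ → ℂ := fun i s =>
    match i with
    | none => z + s
    | some r => (r : ℂ) with hy
  have hyd : ∀ i, Differentiable ℂ (y i) := by
    intro i
    cases i with
    | none => simp only [hy]; fun_prop
    | some r => simp only [hy]; fun_prop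
  have hcov : ∀ s x, (derivative (ps s)).eval x = 0 → ∃ i, x = y i s := by
    intro s x hx
    rw [hder s] at hx
    simp only [hD] at hx
    rw [eval_mul, mul_eq_zero] at hx
    rcases hx with hx | hx
    · refine ⟨none, ?_⟩
      simp only [hy]
      rw [eval_pow] at hx
      have := pow_eq_zero_iff (by omega) |>.mp hx
      rwa [eval_sub, eval_X, eval_C, sub_eq_zero] at this
    · refine ⟨some ⟨x, ?_⟩, rfl⟩
      rw [Multiset.mem_toFinset, Polynomial.mem_roots hq0]
      exact hx
  have hmem : z' ∈ q.roots.toFinset := by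
    rw [Multiset.mem_toFinset, Polynomial.mem_roots hq0]; exact hz'q
  have hnaz : ¬ Attr (ev T) z := not_attr_of_mem_JJ hd hz
  have hne : ∀ δ : ℝ, 0 < δ → ∃ t : ℂ, ‖t‖ < δ ∧
      (ev (ps t))^[1] (y none t) ≠ (ev (ps t))^[1] (y (some ⟨z', hmem⟩) t) := by
    intro δ hδ
    by_contra hcon
    push Not at hcon
    have h1 : ∀ t : ℂ, (ps t).eval (z + t) - (ps t).eval z' =
        (prim z' (D t)).eval (z + t) := by
      intro t
      have h2 : ps t = prim z' (D t) + C ((ps t).eval z') := by
        apply eq_of_derivative (c := z')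
        · rw [hder t, derivative_add, derivative_prim, derivative_C, add_zero]
        · generalize (ps t).eval z' = e
          rw [eval_add, prim_eval, eval_C, zero_add]
      have h3 := congrArg (fun P : ℂ[X] => P.eval (z + t)) h2
      simp only [eval_add, eval_C] at h3
      linear_combination h3
    apply prim_iter_ne z' (μ + 1) hq0
    apply Polynomial.eq_zero_of_infinite_isRoot
    have hinf : (ball z δ : Set ℂ).Infinite := infinite_of_mem_nhds z (ball_mem_nhds z hδ)
    refine hinf.mono ?_
    intro x hx
    have h4 : ‖x - z‖ < δ := by rwa [mem_ball, dist_eq_norm] at hx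
    have h5 := hcon (x - z) h4
    simp only [Function.iterate_one, ev, hy] at h5
    have h6 := h1 (x - z)
    rw [h5, sub_self] at h6
    simp only [hD] at h6
    rw [prim_iter, add_sub_cancel] at h6
    have h7 : (-1 : ℂ) ^ μ * (μ.factorial : ℂ) ≠ 0 := by
      apply mul_ne_zero (pow_ne_zero _ (by norm_num))
      exact_mod_cast Nat.factorial_ne_zero μ
    exact (mul_eq_zero.mp h6.symm).resolve_left h7
  obtain ⟨s, hs0, hsd, hsc, ⟨i, hi1, hi2⟩, hs3⟩ := poly_step hd hPF hdeg hlead hlead0 y hyd hcov
    none (some ⟨z', hmem⟩) 1 1 (by simp only [hy, add_zero, hps0]; exact hnaz)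
    (by simp only [hy, hps0]; exact not_attr_of_mem_JJ hd hz')
    (by simp only [hy, add_zero, hps0, Function.iterate_one, ev]; exact hrel) (by
      simp only [hy, add_zero, hps0]
      exact iter_mem_closure (frontier_subset_closure hz) 1) hne hε
  rw [hps0] at hi1 hs3 hsc
  have hrT : (derivative T).roots = μ • {z} + q.roots := by
    conv_lhs => rw [hTq]
    rw [Polynomial.roots_mul (mul_ne_zero (pow_ne_zero _ (X_sub_C_ne_zero _)) hq0),
      Polynomial.roots_pow, Polynomial.roots_X_sub_C]
  have hrS : (derivative (ps s)).roots = μ • {z + s} + q.roots := by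
    rw [hder s]
    simp only [hD]
    rw [Polynomial.roots_mul (mul_ne_zero (pow_ne_zero _ (X_sub_C_ne_zero _)) hq0),
      Polynomial.roots_pow, Polynomial.roots_X_sub_C]
  have hcount := count_step (T := T) (S := ps s) le_rfl hμ1 hrT hrS hnaz
    (fun r hr h1 => hs3 (some ⟨r, Multiset.mem_toFinset.mpr hr⟩) h1) (by
      cases i with
      | none => exact Or.inl hi2
      | some r => exact Or.inr ⟨r, Multiset.mem_toFinset.mp r.2, hi1, hi2⟩)
  exact ⟨ps s, hsd, hsc, hcount.1, hcount.2.2 hqz'⟩

end Pool.Agent.H713R2.SJ
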