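import Mathlib
import Pool.Agent.H713R2.SJ.SJ10

set_option autoImplicit false

open Topology Filter Metric Set Polynomial

namespace Pool.Agent.H713R2.SJ

open Pool.Agent.H792R2.Dyn

/-- All critical points in the Julia set are simple. -/
def G1 (S : ℂ[X]) : Prop :=
  ∀ z ∈ JJ S, (derivative S).eval z = 0 → (derivative S).rootMultiplicity z = 1

/-- The critical points in the Julia set have infinite pairwise disjoint orbits. -/
def G2 (S : ℂ[X]) : Prop :=
  ∀ z ∈ JJ S, ∀ z' ∈ JJ S, (derivative S).eval z = 0 → (derivative S).eval z' = 0 →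
    ∀ a b : ℕ, (ev S)^[a] z = (ev S)^[b] z' → z = z' ∧ a = b

theorem reduce (n : ℕ) : ∀ T : ℂ[X], 2 ≤ T.natDegree → (naM T).card = n → ∀ ε : ℝ, 0 < ε →
    ∃ S : ℂ[X], S.natDegree = T.natDegree ∧ (∀ i : ℕ, ‖S.coeff i - T.coeff i‖ < ε) ∧
      (naM S).toFinset.card ≤ (naM T).toFinset.card ∧ G1 S ∧ G2 S ∧
      (¬ G2 T → (naM S).toFinset.card < (naM T).toFinset.card) ∧
      (S = T ∨ (naM S).card < (naM T).card) := by
  induction n using Nat.strong_induction_on with
  | _ n ih =>
    intro T hd hn ε hε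
    have key : ∀ T₁ : ℂ[X], T₁.natDegree = T.natDegree →
        (∀ i : ℕ, ‖T₁.coeff i - T.coeff i‖ < ε / 2) → (naM T₁).card < (naM T).card →
        ∃ S : ℂ[X], S.natDegree = T.natDegree ∧ (∀ i : ℕ, ‖S.coeff i - T.coeff i‖ < ε) ∧
          (naM S).toFinset.card ≤ (naM T₁).toFinset.card ∧ G1 S ∧ G2 S ∧
          (naM S).card < (naM T).card := by
      intro T₁ h1 h2 h3
      obtain ⟨S, s1, s2, s3, s4, s5, s6, s7⟩ := ih _ (hn ▸ h3) T₁ (by omega) rfl (ε / 2) (by linarith)
      refine ⟨S, by omega, ?_, s3, s4, s5, ?_⟩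
      · intro i
        have e : S.coeff i - T.coeff i = (S.coeff i - T₁.coeff i) + (T₁.coeff i - T.coeff i) := by
          ring
        rw [e]
        calc ‖(S.coeff i - T₁.coeff i) + (T₁.coeff i - T.coeff i)‖ ≤ _ := norm_add_le _ _
          _ < ε / 2 + ε / 2 := add_lt_add (s2 i) (h2 i)
          _ = ε := by ring
      · rcases s7 with rfl | h
        · exact h3
        · exact h.trans h3
    by_cases hG2 : G2 T
    · by_cases hG1 : G1 T
      · exact ⟨T, rfl, fun i => by simpa using hε, le_rfl, hG1, hG2, fun h => absurd hG2 h,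
          Or.inl rfl⟩
      · unfold G1 at hG1
        push Not at hG1
        obtain ⟨z, hz, hc, hm⟩ := hG1
        have hm1 : 1 ≤ (derivative T).rootMultiplicity z :=
          (Polynomial.rootMultiplicity_pos (deriv_ne hd)).mpr hc
        obtain ⟨T₁, h1, h2, h3, h4⟩ := redA hd hz (by omega) (by linarith : 0 < ε / 2)
        obtain ⟨S, s1, s2, s3, s4, s5, s6⟩ := key T₁ h1 h2 h3
        exact ⟨S, s1, s2, s3.trans h4, s4, s5, fun h => absurd hG2 h, Or.inr s6⟩
    · have hG2' := hG2
      unfold G2 at hG2'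
      push Not at hG2'
      obtain ⟨z, hz, z', hz', hc, hc', a, b, hrel, hne⟩ := hG2'
      have hred : ∃ T₁ : ℂ[X], T₁.natDegree = T.natDegree ∧
          (∀ i : ℕ, ‖T₁.coeff i - T.coeff i‖ < ε / 2) ∧
          (naM T₁).card < (naM T).card ∧ (naM T₁).toFinset.card < (naM T).toFinset.card := by
        by_cases h : a ≠ b ∨ T.eval z ≠ T.eval z'
        · refine redB hd hz hz' hc hc' hrel ?_ h (by linarith : 0 < ε / 2)
          intro h1
          rw [Prod.mk.injEq] at h1
          exact hne h1.1 h1.2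
        · push Not at h
          exact redC hd hz hz' hc hc' h.2 (fun h1 => hne h1 h.1) (by linarith : 0 < ε / 2)
      obtain ⟨T₁, h1, h2, h3, h4⟩ := hred
      obtain ⟨S, s1, s2, s3, s4, s5, s6⟩ := key T₁ h1 h2 h3
      exact ⟨S, s1, s2, s3.trans h4.le, s4, s5, fun _ => lt_of_le_of_lt s3 h4, Or.inr s6⟩

end Pool.Agent.H713R2.SJ
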